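import Pool.Agent.R233.CH.Defs

/-!
Polynomials without zeros on a compact star-shaped set have approximate polynomial inverses.
-/

set_option autoImplicit false

open Set Filter Topology

namespace Pool.Agent.R233.CH

namespace Approx

open MvPolynomial

variable {Y : Set (Fin 2 → ℂ)}

/-- approximately invertible on `Y` -/
def Inv (Y : Set (Fin 2 → ℂ)) (p : MvPolynomial (Fin 2) ℂ) : Prop :=
  ∀ η : ℝ, 0 < η → ∃ q : MvPolynomial (Fin 2) ℂ, ∀ x ∈ Y, ‖eval x p * eval x q - 1‖ ≤ η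

lemma step {P P' : MvPolynomial (Fin 2) ℂ} (hP : Inv Y P)
    (h : ∀ x ∈ Y, ‖eval x P - eval x P'‖ ≤ ‖eval x P‖ / 2) : Inv Y P' := by
  intro η hη
  have he1 : 0 < min (1 / 2) (η / 8) := by positivity
  obtain ⟨q, hq⟩ := hP _ he1
  obtain ⟨J, hJ⟩ := exists_pow_lt_of_lt_one (half_pos hη) (by norm_num : (3 / 4 : ℝ) < 1)
  refine ⟨q * ∑ j ∈ Finset.range J, ((P - P') * q) ^ j, fun x hx => ?_⟩
  have h1 := hq x hx
  have h2 := h x hx
  rw [map_mul, map_sum]
  simp only [map_pow, map_mul, map_sub]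
  generalize eval x P = a at *
  generalize eval x P' = a' at *
  generalize eval x q = c at *
  set F := (a - a') * c with hF
  have hac : ‖a * c‖ ≤ 3 / 2 := by
    have h3 : ‖a * c‖ ≤ ‖a * c - 1‖ + ‖(1 : ℂ)‖ := by
      have := norm_add_le (a * c - 1) 1
      rwa [sub_add_cancel] at this
    rw [norm_one] at h3
    have := h1.trans (min_le_left _ _)
    linarith
  have hFn : ‖F‖ ≤ 3 / 4 := by
    rw [hF, norm_mul]
    calc ‖a - a'‖ * ‖c‖ ≤ (‖a‖ / 2) * ‖c‖ := by gcongr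
      _ = ‖a * c‖ / 2 := by rw [norm_mul]; ring
      _ ≤ 3 / 4 := by linarith
  have hgeo : (1 - F) * ∑ j ∈ Finset.range J, F ^ j = 1 - F ^ J := by
    rw [mul_comm, geom_sum_mul_neg]
  have hid : a' * (c * ∑ j ∈ Finset.range J, F ^ j) - 1 =
      (a * c - 1) * (∑ j ∈ Finset.range J, F ^ j) - F ^ J := by
    have : a' * c = a * c - F := by rw [hF]; ring
    rw [← mul_assoc, this]
    linear_combination hgeo
  have hsum : ‖∑ j ∈ Finset.range J, F ^ j‖ ≤ 4 := by
    calc ‖∑ j ∈ Finset.range J, F ^ j‖ ≤ ∑ j ∈ Finset.range J, ‖F ^ j‖ := norm_sum_le _ _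
      _ ≤ ∑ j ∈ Finset.range J, (3 / 4 : ℝ) ^ j := by
        apply Finset.sum_le_sum
        intro j _
        rw [norm_pow]
        gcongr
      _ ≤ ∑' j : ℕ, (3 / 4 : ℝ) ^ j :=
        Summable.sum_le_tsum _ (fun _ _ => by positivity)
          (summable_geometric_of_lt_one (by norm_num) (by norm_num))
      _ = 4 := by rw [tsum_geometric_of_lt_one (by norm_num) (by norm_num)]; norm_num
  rw [hid]
  calc ‖(a * c - 1) * (∑ j ∈ Finset.range J, F ^ j) - F ^ J‖ ≤
      ‖(a * c - 1) * (∑ j ∈ Finset.range J, F ^ j)‖ + ‖F ^ J‖ := norm_sub_le _ _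
    _ ≤ (η / 8) * 4 + (3 / 4) ^ J := by
      rw [norm_mul, norm_pow]
      have := h1.trans (min_le_right _ _)
      gcongr
    _ ≤ η := by linarith

/-- dilation of a polynomial -/
noncomputable def dil (s : ℝ) (p : MvPolynomial (Fin 2) ℂ) : MvPolynomial (Fin 2) ℂ :=
  bind₁ (fun i => C (s : ℂ) * X i) p

lemma eval_dil (s : ℝ) (p : MvPolynomial (Fin 2) ℂ) (x : Fin 2 → ℂ) :
    eval x (dil s p) = eval (s • x) p := by
  unfold dil
  induction p using MvPolynomial.induction_on with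
  | C a => simp
  | add p q hp hq => simp [hp, hq]
  | mul_X p i hp =>
    rw [map_mul, map_mul, map_mul, hp]
    simp

end Approx

open Approx MvPolynomial in
theorem approxInv : Pool.Agent.R233.CH.ApproxInv := by
  intro Y hY h0 hstar p hp
  set H : ℝ × (Fin 2 → ℂ) → ℂ := fun z => eval (z.1 • z.2) p with hH
  have hcont : Continuous H := by
    have h1 : Continuous fun x : Fin 2 → ℂ => eval x p := MvPolynomial.continuous_eval p
    exact h1.comp (continuous_fst.smul continuous_snd)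
  have hK : IsCompact (Icc (0 : ℝ) 1 ×ˢ Y) := isCompact_Icc.prod hY
  have hne : (Icc (0 : ℝ) 1 ×ˢ Y).Nonempty := ⟨(0, 0), ⟨by norm_num, by norm_num⟩, h0⟩
  obtain ⟨z0, hz0, hmin⟩ := hK.exists_isMinOn hne hcont.norm.continuousOn
  set m := ‖H z0‖ with hm
  have hm0 : 0 < m := by
    rw [hm, norm_pos_iff]
    exact hp _ (hstar _ hz0.2 _ hz0.1.1 hz0.1.2)
  have hmin' : ∀ s x, 0 ≤ s → s ≤ 1 → x ∈ Y → m ≤ ‖H (s, x)‖ := fun s x h1 h2 hx =>
    hmin (a := (s, x)) ⟨⟨h1, h2⟩, hx⟩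
  have huc := hK.uniformContinuousOn_of_continuous hcont.continuousOn
  rw [Metric.uniformContinuousOn_iff] at huc
  obtain ⟨δ, hδ, hd⟩ := huc (m / 2) (half_pos hm0)
  obtain ⟨N, hN⟩ := exists_nat_one_div_lt hδ
  have hN0 : (0 : ℝ) < (N : ℝ) + 1 := by positivity
  have key : ∀ k : ℕ, k ≤ N + 1 → Inv Y (dil ((k : ℝ) / (N + 1)) p) := by
    intro k
    induction k with
    | zero =>
      intro _ η hη
      have hc : eval (0 : Fin 2 → ℂ) p ≠ 0 := hp 0 h0
      refine ⟨C (eval (0 : Fin 2 → ℂ) p)⁻¹, fun x _ => ?_⟩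
      rw [eval_dil]
      simp only [Nat.cast_zero, zero_div, zero_smul, eval_C]
      rw [mul_inv_cancel₀ hc]
      simpa using hη.le
    | succ k ih =>
      intro hk
      refine step (ih (by omega)) (fun x hx => ?_)
      rw [eval_dil, eval_dil]
      have hkN : (k : ℝ) + 1 ≤ N + 1 := by exact_mod_cast hk
      have s1 : (0 : ℝ) ≤ (k : ℝ) / (N + 1) := by positivity
      have s2 : (k : ℝ) / (N + 1) ≤ 1 := by rw [div_le_one hN0]; linarith
      have s3 : (0 : ℝ) ≤ ((k + 1 : ℕ) : ℝ) / (N + 1) := by positivity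
      have s4 : ((k + 1 : ℕ) : ℝ) / (N + 1) ≤ 1 := by
        rw [div_le_one hN0]; push_cast; linarith
      have h1 := hd ((k : ℝ) / (N + 1), x) ⟨⟨s1, s2⟩, hx⟩ (((k + 1 : ℕ) : ℝ) / (N + 1), x)
        ⟨⟨s3, s4⟩, hx⟩ (by
          rw [Prod.dist_eq, dist_self, Real.dist_eq]
          have : (k : ℝ) / (N + 1) - ((k + 1 : ℕ) : ℝ) / (N + 1) = -(1 / (N + 1)) := by
            push_cast; ring
          rw [this, abs_neg, abs_of_pos (by positivity)]
          simp only [max_lt_iff]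
          exact ⟨hN, hδ⟩)
      rw [dist_eq_norm] at h1
      have h2 := hmin' _ x s1 s2 hx
      simp only [hH] at h1 h2
      linarith
  have hfin := key (N + 1) le_rfl (1 / 2) (by norm_num)
  obtain ⟨q, hq⟩ := hfin
  refine ⟨q, fun x hx => ?_⟩
  have h1 := hq x hx
  rw [eval_dil] at h1
  have : (((N + 1 : ℕ) : ℝ) / (N + 1)) = 1 := by
    push_cast; field_simp
  rwa [this, one_smul] at h1

end Pool.Agent.R233.CH
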