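import Mathlib

/-!
A Cantor set in the complex plane `ℂ²` whose rational hull has interior and equals its polynomial
hull: the definitions shared by the parts of the proof.
-/

set_option autoImplicit false

open Set Filter Topology

namespace Pool.Agent.R233.CH

/-- the space `ℂ²` with its Euclidean norm -/
abbrev E := EuclideanSpace ℂ (Fin 2)

/-- an admissible gap function `g`; the number `δ` measures its strict plurisubharmonicity and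
`C` its independence from `‖x‖ ^ 2` near the unit sphere -/
structure Gap (δ θ C : ℝ) (g : E → ℝ) : Prop where
  cont : Continuous g
  expand : ∀ p : E, ‖p‖ ≤ 1 → ∃ G : E →L[ℂ] ℂ, (∀ h, ‖G h‖ ≤ 5 * ‖h‖) ∧
    (∀ h, g p + (G h).re + δ * ‖h‖ ^ 2 ≤ g (p + h)) ∧
    (∀ h, g (p + h) ≤ g p + (G h).re + 2 * ‖h‖ ^ 2) ∧
    (1 - θ ≤ ‖p‖ ^ 2 → |g p| ≤ θ → ∀ h, ‖h‖ ≤ C * (‖2 * inner ℂ p h‖ + ‖G h‖))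

/-- the system of dented balls `{Φ k ≤ 0}` for a sequence of gap functions -/
structure Sys (δ θ C e : ℝ) (g : ℕ → E → ℝ) (Φ : ℕ → E → ℝ) (ε A M R : ℕ → ℝ) : Prop where
  δ0 : 0 < δ
  δ1 : δ ≤ 1
  θ0 : 0 < θ
  θ1 : θ ≤ 1
  C1 : 1 ≤ C
  e0 : 0 ≤ e
  eC : C * e ≤ 1 / 2
  gap : ∀ k, Gap δ θ C (g k)
  base : ∀ x, Φ 0 x = ‖x‖ ^ 2 - 1
  cont : ∀ k, Continuous (Φ k)
  mono : ∀ k x, Φ k x ≤ Φ (k + 1) x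
  up : ∀ k x, Φ (k + 1) x ≤ Φ k x + 10 * A k * ε k ^ 2
  dip : ∀ k x, |g k x| ≤ ε k → Φ (k + 1) x = Φ k x + 10 * A k * ε k ^ 2
  far : ∀ k x, 3 * ε k ≤ |g k x| → Φ (k + 1) x = Φ k x
  semi : ∀ k (p : E), ‖p‖ ≤ 1 → ∃ L : E →L[ℂ] ℂ, (∀ h, ‖L h - 2 * inner ℂ p h‖ ≤ e * ‖h‖) ∧
    ∀ h, ‖h‖ ≤ 1 → Φ k (p + h) ≤ Φ k p + (L h).re + M k * ‖h‖ ^ 2
  half : ∀ k x, ‖x‖ ≤ 1 / 2 → Φ k x ≤ 0
  star : ∀ k x (s : ℝ), 0 ≤ s → s ≤ 1 → Φ k x ≤ 0 → Φ k (s • x) ≤ 0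
  R0 : ∀ k, 0 < R k
  R1 : ∀ k, R k ≤ 1
  Rhalf : ∀ k, 2 * R (k + 1) ≤ R k
  eps : ∀ k, ε k = δ * R k ^ 2 / 8
  M1 : ∀ k, 1 ≤ M k
  Alarge : ∀ k, 576 * (M k + 2) * C ^ 2 + 8 ≤ A k
  Aeps : ∀ k, 7 * A k * ε k ≤ 1
  Adec : ∀ k, 20 * A (k + 1) * ε (k + 1) ^ 2 ≤ A k * ε k ^ 2
  Rdec : ∀ k, 8 * R (k + 1) ≤ ε k ^ 2
  shallow : 20 * A 0 * ε 0 ^ 2 + 3 * R 0 ≤ θ

/-- PART 1: a sequence of gap functions separating the points of the closed unit ball -/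
def ExistsGaps : Prop :=
  ∃ δ θ C : ℝ, 0 < δ ∧ δ ≤ 1 ∧ 0 < θ ∧ θ ≤ 1 ∧ 1 ≤ C ∧ ∃ g : ℕ → E → ℝ, (∀ k, Gap δ θ C (g k)) ∧
    ∀ x y : E, ‖x‖ ≤ 1 → ‖y‖ ≤ 1 → x ≠ y →
      ∃ k, (g k x < 0 ∧ 0 < g k y) ∨ (g k y < 0 ∧ 0 < g k x)

/-- PART 2: the system exists for every sequence of gap functions -/
def ExistsSys : Prop :=
  ∀ (δ θ C : ℝ) (g : ℕ → E → ℝ), 0 < δ → δ ≤ 1 → 0 < θ → θ ≤ 1 → 1 ≤ C →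
    (∀ k, Gap δ θ C (g k)) → ∃ (e : ℝ) (Φ : ℕ → E → ℝ) (ε A M R : ℕ → ℝ),
      Sys δ θ C e g Φ ε A M R

/-- PART 3: polynomials without zeros on a compact star-shaped set have approximate inverses -/
def ApproxInv : Prop :=
  ∀ (Y : Set (Fin 2 → ℂ)), IsCompact Y → (0 : Fin 2 → ℂ) ∈ Y →
    (∀ x ∈ Y, ∀ s : ℝ, 0 ≤ s → s ≤ 1 → s • x ∈ Y) → ∀ p : MvPolynomial (Fin 2) ℂ,
    (∀ x ∈ Y, MvPolynomial.eval x p ≠ 0) → ∃ q : MvPolynomial (Fin 2) ℂ,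
      ∀ x ∈ Y, ‖MvPolynomial.eval x p * MvPolynomial.eval x q - 1‖ ≤ 1 / 2

/-- PART 4: the hitting theorem -/
def Hitting : Prop :=
  ∃ (X Y : Set E) (g : ℕ → E → ℝ), IsCompact X ∧ IsCompact Y ∧ X ⊆ Y ∧
    (∀ x : E, ‖x‖ ≤ 1 / 2 → x ∈ Y) ∧ (∀ x ∈ Y, ∀ s : ℝ, 0 ≤ s → s ≤ 1 → s • x ∈ Y) ∧
    (∀ k, Continuous (g k)) ∧ (∀ k, ∀ x ∈ X, g k x ≠ 0) ∧
    (∀ x ∈ X, ∀ y ∈ X, x ≠ y → ∃ k, (g k x < 0 ∧ 0 < g k y) ∨ (g k y < 0 ∧ 0 < g k x)) ∧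
    ∀ f : E → ℂ, Differentiable ℂ f → (∀ x ∈ X, f x ≠ 0) → ∀ x ∈ Y, f x ≠ 0

/-- PART 5: the conclusion -/
def Final : Prop :=
  ∃ K : Set (Fin 2 → ℂ), Nonempty (↥K ≃ₜ (ℕ → Bool)) ∧
    (interior {z : Fin 2 → ℂ | ∀ p : MvPolynomial (Fin 2) ℂ,
      MvPolynomial.eval z p = 0 → ∃ w ∈ K, MvPolynomial.eval w p = 0}).Nonempty ∧
    {z : Fin 2 → ℂ | ∀ p : MvPolynomial (Fin 2) ℂ,
      ∃ w ∈ K, ‖MvPolynomial.eval z p‖ ≤ ‖MvPolynomial.eval w p‖} ≠ K ∧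
    {z : Fin 2 → ℂ | ∀ p : MvPolynomial (Fin 2) ℂ,
      ∃ w ∈ K, ‖MvPolynomial.eval z p‖ ≤ ‖MvPolynomial.eval w p‖} =
    {z : Fin 2 → ℂ | ∀ p : MvPolynomial (Fin 2) ℂ,
      MvPolynomial.eval z p = 0 → ∃ w ∈ K, MvPolynomial.eval w p = 0}

end Pool.Agent.R233.CH
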