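import Mathlib
import Pool.Agent.R233.CH.Defs
import Pool.Agent.H812R3.CantorChar

/-!
The final assembly: from the hitting theorem and the approximate inverses to a Cantor set in `ℂ²`
whose rational hull has interior and equals its polynomial hull, which is bigger than the set.
-/

set_option autoImplicit false

open Set Filter Topology

namespace Pool.Agent.R233.CH

/-- a polynomial is an entire function -/
theorem differentiable_eval (p : MvPolynomial (Fin 2) ℂ) :
    Differentiable ℂ (fun x : Fin 2 → ℂ => MvPolynomial.eval x p) := by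
  induction p using MvPolynomial.induction_on with
  | C a => simp
  | add p q hp hq =>
    have h : Differentiable ℂ (fun x : Fin 2 → ℂ => MvPolynomial.eval x p +
      MvPolynomial.eval x q) := hp.add hq
    simpa using h
  | mul_X p i hp =>
    have hi : Differentiable ℂ (fun x : Fin 2 → ℂ => x i) := differentiable_apply i
    have h : Differentiable ℂ (fun x : Fin 2 → ℂ => MvPolynomial.eval x p * x i) := hp.mul hi
    simpa using h

theorem continuous_eval (p : MvPolynomial (Fin 2) ℂ) :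
    Continuous (fun x : Fin 2 → ℂ => MvPolynomial.eval x p) :=
  (differentiable_eval p).continuous

/-- the assembly in coordinates -/
theorem final_core (X Y : Set (Fin 2 → ℂ)) (g : ℕ → (Fin 2 → ℂ) → ℝ) (hX : IsCompact X)
    (hY : IsCompact Y) (hXY : X ⊆ Y) (hint : (interior Y).Nonempty) (h0 : (0 : Fin 2 → ℂ) ∈ Y)
    (y1 : Fin 2 → ℂ) (hy1 : y1 ∈ Y) (hy10 : y1 0 ≠ 0)
    (hstar : ∀ x ∈ Y, ∀ s : ℝ, 0 ≤ s → s ≤ 1 → s • x ∈ Y)
    (hgc : ∀ k, Continuous (g k)) (hg0 : ∀ k, ∀ x ∈ X, g k x ≠ 0)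
    (hsep : ∀ x ∈ X, ∀ y ∈ X, x ≠ y → ∃ k, (g k x < 0 ∧ 0 < g k y) ∨ (g k y < 0 ∧ 0 < g k x))
    (hhit : ∀ p : MvPolynomial (Fin 2) ℂ, (∀ x ∈ X, MvPolynomial.eval x p ≠ 0) →
      ∀ x ∈ Y, MvPolynomial.eval x p ≠ 0) (h2 : ApproxInv) : Final := by
  classical
  have hsc : StarConvex ℝ (0 : Fin 2 → ℂ) Y := by
    intro y hy a b ha hb hab
    rw [smul_zero, zero_add]
    exact hstar y hy b hb (by linarith)
  have hconn : IsPreconnected Y := (hsc.isPathConnected h0).isConnected.isPreconnected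
  obtain ⟨V, D, hV, hD, hXVD⟩ := exists_countable_union_perfect_of_isClosed hX.isClosed
  have hDX : D ⊆ X := by
    rw [hXVD]
    exact subset_union_right
  have hDc : IsCompact D := hX.of_isClosed_subset hD.closed hDX
  have hitD : ∀ p : MvPolynomial (Fin 2) ℂ, (∃ y ∈ Y, MvPolynomial.eval y p ≠ 0) →
      (∀ x ∈ D, MvPolynomial.eval x p ≠ 0) → ∀ y ∈ Y, MvPolynomial.eval y p ≠ 0 := by
    intro p hex hpD y0 hy0 hpy0
    obtain ⟨y2, hy2, hpy2⟩ := hex
    have hf : Continuous (fun x : Fin 2 → ℂ => ‖MvPolynomial.eval x p‖) := (continuous_eval p).norm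
    obtain ⟨m, hm0, hm⟩ : ∃ m : ℝ, 0 < m ∧ ∀ x ∈ D, m ≤ ‖MvPolynomial.eval x p‖ := by
      rcases D.eq_empty_or_nonempty with hDe | hDne
      · exact ⟨1, one_pos, fun x hx => by simp [hDe] at hx⟩
      · obtain ⟨x0, hx0, hmin⟩ := hDc.exists_isMinOn hDne hf.continuousOn
        exact ⟨_, norm_pos_iff.mpr (hpD x0 hx0), fun x hx => hmin hx⟩
    have hc : 0 < ‖MvPolynomial.eval y2 p‖ := norm_pos_iff.mpr hpy2
    have hcount : (((fun x : Fin 2 → ℂ => ‖MvPolynomial.eval x p‖) '' V)).Countable := hV.image _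
    obtain ⟨s, hs1, hs2⟩ := (hcount.dense_compl ℝ).exists_between (lt_min hc hm0)
    have hsin : s ∈ Icc ‖MvPolynomial.eval y0 p‖ ‖MvPolynomial.eval y2 p‖ := by
      rw [hpy0, norm_zero]
      exact ⟨hs2.1.le, (hs2.2.trans_le (min_le_left _ _)).le⟩
    obtain ⟨y, hyY, hys⟩ := hconn.intermediate_value hy0 hy2 hf.continuousOn hsin
    simp only at hys
    refine hhit (p - MvPolynomial.C (MvPolynomial.eval y p)) ?_ y hyY (by simp)
    intro x hx hx0
    have hxe : MvPolynomial.eval x p = MvPolynomial.eval y p := by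
      have : MvPolynomial.eval x p - MvPolynomial.eval y p = 0 := by simpa using hx0
      exact sub_eq_zero.mp this
    rw [hXVD] at hx
    rcases hx with hx | hx
    · apply hs1
      refine ⟨x, hx, ?_⟩
      simp only
      rw [hxe, hys]
    · have h3 := hm x hx
      rw [hxe, hys] at h3
      exact absurd (hs2.2.trans_le (min_le_right _ _)) (not_lt.mpr h3)
  have hDne : D.Nonempty := by
    rcases D.eq_empty_or_nonempty with hDe | hDne
    · exfalso
      refine hitD (MvPolynomial.X 0) ⟨y1, hy1, by simpa using hy10⟩ ?_ 0 h0 (by simp)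
      intro x hx
      simp [hDe] at hx
    · exact hDne
  have hitD' : ∀ p : MvPolynomial (Fin 2) ℂ, (∀ x ∈ D, MvPolynomial.eval x p ≠ 0) →
      ∀ y ∈ Y, MvPolynomial.eval y p ≠ 0 := by
    intro p hp
    obtain ⟨d, hd⟩ := hDne
    exact hitD p ⟨d, hXY (hDX hd), hp d hd⟩ hp
  have hYR : Y ⊆ {z : Fin 2 → ℂ | ∀ p : MvPolynomial (Fin 2) ℂ,
      MvPolynomial.eval z p = 0 → ∃ w ∈ D, MvPolynomial.eval w p = 0} := by
    intro z hz p hpz
    by_contra hcon
    push Not at hcon
    exact hitD' p hcon z hz hpz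
  have heq : {z : Fin 2 → ℂ | ∀ p : MvPolynomial (Fin 2) ℂ,
      ∃ w ∈ D, ‖MvPolynomial.eval z p‖ ≤ ‖MvPolynomial.eval w p‖} =
      {z : Fin 2 → ℂ | ∀ p : MvPolynomial (Fin 2) ℂ,
      MvPolynomial.eval z p = 0 → ∃ w ∈ D, MvPolynomial.eval w p = 0} := by
    apply Subset.antisymm
    · intro z hz p hpz
      by_contra hcon
      push Not at hcon
      obtain ⟨q, hq⟩ := h2 Y hY h0 hstar p (hitD' p hcon)
      obtain ⟨w, hw, hzw⟩ := hz (p * q - 1)
      have h3 := hq w (hXY (hDX hw))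
      simp only [map_sub, map_mul, map_one, hpz, zero_mul, zero_sub, norm_neg, norm_one] at hzw
      linarith
    · intro z hz p
      obtain ⟨w, hw, hw0⟩ := hz (p - MvPolynomial.C (MvPolynomial.eval z p)) (by simp)
      refine ⟨w, hw, ?_⟩
      have : MvPolynomial.eval w p - MvPolynomial.eval z p = 0 := by simpa using hw0
      rw [sub_eq_zero.mp this]
  refine ⟨D, ?_, ?_, ?_, heq⟩
  · have : CompactSpace D := isCompact_iff_compactSpace.mp hDc
    have : Nonempty D := hDne.to_subtype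
    refine Pool.Agent.H812R3.CantorChar.cantor_char
      (fun (x : D) (k : ℕ) => decide (0 < g k (x : Fin 2 → ℂ))) ?_ ?_ ?_
    · refine continuous_pi fun k => ?_
      rw [continuous_iff_continuousAt]
      intro x
      have hgk : Continuous fun z : D => g k (z : Fin 2 → ℂ) := (hgc k).comp continuous_subtype_val
      rcases lt_or_gt_of_ne (hg0 k x (hDX x.2)) with hlt | hgt
      · have hev : ∀ᶠ z in 𝓝 x, g k (z : D) < 0 := hgk.continuousAt.eventually_lt_const hlt
        refine (continuousAt_const (y := false)).congr ?_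
        filter_upwards [hev] with z hz
        symm
        simpa using hz.le
      · have hev : ∀ᶠ z in 𝓝 x, 0 < g k (z : D) := hgk.continuousAt.eventually_const_lt hgt
        refine (continuousAt_const (y := true)).congr ?_
        filter_upwards [hev] with z hz
        symm
        simpa using hz
    · intro x y hxy
      by_contra hne
      obtain ⟨k, hk⟩ := hsep x (hDX x.2) y (hDX y.2) (fun h => hne (Subtype.ext h))
      have h3 : decide (0 < g k (x : Fin 2 → ℂ)) = decide (0 < g k (y : Fin 2 → ℂ)) :=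
        congrFun hxy k
      rw [decide_eq_decide] at h3
      rcases hk with ⟨h4, h5⟩ | ⟨h4, h5⟩
      · exact absurd (h3.mpr h5) (not_lt.mpr h4.le)
      · exact absurd (h3.mp h5) (not_lt.mpr h4.le)
    · intro z U hU hz
      obtain ⟨W, hW, rfl⟩ := isOpen_induced_iff.mp hU
      obtain ⟨y, ⟨hyW, hyD⟩, hyz⟩ := accPt_iff_nhds.mp (hD.acc z z.2) W (hW.mem_nhds hz)
      exact ⟨⟨y, hyD⟩, hyW, fun h => hyz (congrArg Subtype.val h)⟩
  · exact hint.mono (interior_mono hYR)
  · intro hPK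
    rw [heq] at hPK
    have hYD : Y ⊆ D := hYR.trans hPK.subset
    have hne : y1 ≠ 0 := by
      rintro rfl
      exact hy10 rfl
    obtain ⟨k, hk⟩ := hsep y1 (hDX (hYD hy1)) 0 (hDX (hYD h0)) hne
    have hz : ∃ z ∈ Y, g k z = 0 := by
      rcases hk with ⟨h4, h5⟩ | ⟨h4, h5⟩
      · exact hconn.intermediate_value hy1 h0 (hgc k).continuousOn ⟨h4.le, h5.le⟩
      · exact hconn.intermediate_value h0 hy1 (hgc k).continuousOn ⟨h4.le, h5.le⟩
    obtain ⟨z, hz, hz0⟩ := hz
    exact hg0 k z (hDX (hYD hz)) hz0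

theorem final (h1 : Pool.Agent.R233.CH.Hitting) (h2 : Pool.Agent.R233.CH.ApproxInv) :
    Pool.Agent.R233.CH.Final := by
  obtain ⟨X, Y, g, hX, hY, hXY, hball, hstar, hgc, hg0, hsep, hhit⟩ := h1
  let φ : E ≃L[ℂ] (Fin 2 → ℂ) := EuclideanSpace.equiv (Fin 2) ℂ
  have hφc : Continuous φ := φ.continuous
  refine final_core (φ '' X) (φ '' Y) (fun k x => g k (φ.symm x)) (hX.image hφc) (hY.image hφc)
    (image_mono hXY) ?_ ⟨0, hball 0 (by simp), map_zero φ⟩
    (φ (EuclideanSpace.single 0 (1 / 4))) ⟨_, hball _ ?_, rfl⟩ ?_ ?_ ?_ ?_ ?_ ?_ h2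
  · have h3 : Metric.ball (0 : E) (1 / 2) ⊆ Y := by
      intro x hx
      exact hball x (by simpa using (mem_ball_zero_iff.mp hx).le)
    have h4 : φ '' Metric.ball (0 : E) (1 / 2) ⊆ interior (φ '' Y) :=
      interior_maximal (image_mono h3) (φ.toHomeomorph.isOpenMap _ Metric.isOpen_ball)
    exact ⟨φ 0, h4 ⟨0, by simp, rfl⟩⟩
  · rw [PiLp.norm_single]
    norm_num
  · simp [φ]
  · rintro _ ⟨x, hx, rfl⟩ s hs0 hs1
    refine ⟨s • x, hstar x hx s hs0 hs1, ?_⟩
    rfl
  · intro k
    exact (hgc k).comp φ.symm.continuous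
  · rintro k _ ⟨x, hx, rfl⟩
    simpa using hg0 k x hx
  · rintro _ ⟨x, hx, rfl⟩ _ ⟨y, hy, rfl⟩ hxy
    obtain ⟨k, hk⟩ := hsep x hx y hy (fun h => hxy (by rw [h]))
    exact ⟨k, by simpa using hk⟩
  · rintro p hp _ ⟨x, hx, rfl⟩
    have hd : Differentiable ℂ (fun z : E => MvPolynomial.eval (φ z) p) :=
      (differentiable_eval p).comp φ.differentiable
    exact hhit (fun z : E => MvPolynomial.eval (φ z) p) hd
      (fun z hz => hp (φ z) ⟨z, hz, rfl⟩) x hx

end Pool.Agent.R233.CH
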