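import Mathlib
import Pool.Agent.R233.CH.Defs

/-!
Existence of the system of dented balls for every sequence of gap functions.
-/

set_option autoImplicit false

open Set Filter Topology

namespace Pool.Agent.R233.CH

namespace SysEx

/-! ### The bump function -/

/-- the trapezoid `min 2 (max 0 (3 - |s|))` -/
noncomputable def cc (s : ℝ) : ℝ := min 2 (max 0 (3 - |s|))

/-- the bump function -/
noncomputable def bb (s : ℝ) : ℝ := cc s ^ 2 / 4

lemma cc_nonneg (s : ℝ) : 0 ≤ cc s := le_min (by norm_num) (le_max_left _ _)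

lemma cc_le (s : ℝ) : cc s ≤ 2 := min_le_left _ _

lemma bb_nonneg (s : ℝ) : 0 ≤ bb s := by
  unfold bb; positivity

lemma bb_le_one (s : ℝ) : bb s ≤ 1 := by
  unfold bb
  nlinarith [cc_nonneg s, cc_le s]

lemma bb_one (s : ℝ) (h : |s| ≤ 1) : bb s = 1 := by
  have h1 : cc s = 2 := by
    unfold cc
    rw [max_eq_right (by linarith), min_eq_left (by linarith)]
  unfold bb
  rw [h1]; norm_num

lemma bb_zero (s : ℝ) (h : 3 ≤ |s|) : bb s = 0 := by
  have h1 : cc s = 0 := by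
    unfold cc
    rw [max_eq_left (by linarith), min_eq_right (by norm_num)]
  unfold bb
  rw [h1]; norm_num

lemma cc_lip (s t : ℝ) : |cc s - cc t| ≤ |s - t| := by
  unfold cc
  have h1 : |min 2 (max 0 (3 - |s|)) - min 2 (max 0 (3 - |t|))| ≤
      |max 0 (3 - |s|) - max 0 (3 - |t|)| := by
    have := abs_min_sub_min_le_max 2 (max 0 (3 - |s|)) 2 (max 0 (3 - |t|))
    simpa using this
  have h2 : |max 0 (3 - |s|) - max 0 (3 - |t|)| ≤ |(3 - |s|) - (3 - |t|)| := by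
    have := abs_max_sub_max_le_max 0 (3 - |s|) 0 (3 - |t|)
    simpa using this
  have h3 : |(3 - |s|) - (3 - |t|)| ≤ |s - t| := by
    have h4 : (3 - |s|) - (3 - |t|) = |t| - |s| := by ring
    rw [h4, abs_sub_comm s t]
    exact abs_abs_sub_abs_le t s
  linarith

lemma bb_lip (s t : ℝ) : |bb s - bb t| ≤ |s - t| := by
  have h1 := cc_lip s t
  have h2 : bb s - bb t = (cc s - cc t) * ((cc s + cc t) / 4) := by
    unfold bb; ring
  rw [h2, abs_mul]
  have h3 : |(cc s + cc t) / 4| ≤ 1 := by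
    rw [abs_of_nonneg (by have := cc_nonneg s; have := cc_nonneg t; linarith)]
    have := cc_le s
    have := cc_le t
    linarith
  calc |cc s - cc t| * |(cc s + cc t) / 4| ≤ |s - t| * 1 :=
        mul_le_mul h1 h3 (abs_nonneg _) (abs_nonneg _)
    _ = |s - t| := mul_one _

lemma bb_cont : Continuous bb := by
  unfold bb cc
  fun_prop

lemma cc_le_abs (t u : ℝ) (hu : |u| ≤ 3) : cc t ≤ 3 - |u| + |t - u| := by
  unfold cc
  refine (min_le_right _ _).trans (max_le ?_ ?_)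
  · have := abs_nonneg (t - u)
    linarith
  · have h1 : |u| ≤ |t| + |t - u| := by
      calc |u| = |t - (t - u)| := by ring_nf
        _ ≤ |t| + |t - u| := abs_sub _ _
    linarith

lemma bb_le_of_abs (t : ℝ) (w : ℝ) (h : cc t ≤ |w|) : bb t ≤ w ^ 2 / 4 := by
  unfold bb
  have h0 := cc_nonneg t
  have h1 : cc t ^ 2 ≤ |w| ^ 2 := pow_le_pow_left₀ h0 h 2
  rw [sq_abs] at h1
  linarith

lemma cc_le_three_sub (t : ℝ) : cc t ≤ |3 - t| := by
  unfold cc
  refine (min_le_right _ _).trans (max_le (abs_nonneg _) ?_)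
  have h1 : t ≤ |t| := le_abs_self t
  have h2 : 3 - t ≤ |3 - t| := le_abs_self _
  linarith

lemma cc_le_three_add (t : ℝ) : cc t ≤ |3 + t| := by
  unfold cc
  refine (min_le_right _ _).trans (max_le (abs_nonneg _) ?_)
  have h1 : -t ≤ |t| := neg_le_abs t
  have h2 : 3 + t ≤ |3 + t| := le_abs_self _
  linarith

lemma bb_semi (s : ℝ) : ∃ β : ℝ, |β| ≤ 1 ∧ ∀ h : ℝ, bb (s + h) ≤ bb s + β * h + h ^ 2 / 4 := by
  rcases le_or_gt |s| 1 with h1 | h1
  · refine ⟨0, by simp, fun h => ?_⟩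
    rw [bb_one s h1]
    have := bb_le_one (s + h)
    nlinarith [sq_nonneg h]
  rcases le_or_gt 3 |s| with h3 | h3
  · refine ⟨0, by simp, fun h => ?_⟩
    rw [bb_zero s h3]
    have h4 : cc (s + h) ≤ |h| := by
      unfold cc
      refine (min_le_right _ _).trans (max_le (abs_nonneg _) ?_)
      have h5 : |s| ≤ |s + h| + |h| := by
        calc |s| = |(s + h) - h| := by ring_nf
          _ ≤ |s + h| + |h| := abs_sub _ _
      linarith
    have := bb_le_of_abs (s + h) h h4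
    linarith
  · rcases le_or_gt 0 s with hs | hs
    · rw [abs_of_nonneg hs] at h1 h3
      have hcs : cc s = 3 - s := by
        unfold cc
        rw [abs_of_nonneg hs, max_eq_right (by linarith), min_eq_right (by linarith)]
      refine ⟨-(3 - s) / 2, ?_, fun h => ?_⟩
      · rw [abs_le]; constructor <;> linarith
      · have h4 := bb_le_of_abs (s + h) (3 - (s + h)) (cc_le_three_sub _)
        have h5 : bb s = (3 - s) ^ 2 / 4 := by unfold bb; rw [hcs]
        rw [h5]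
        nlinarith
    · rw [abs_of_neg hs] at h1 h3
      have hcs : cc s = 3 + s := by
        unfold cc
        rw [abs_of_neg hs, max_eq_right (by linarith), min_eq_right (by linarith)]
        ring
      refine ⟨(3 + s) / 2, ?_, fun h => ?_⟩
      · rw [abs_le]; constructor <;> linarith
      · have h4 := bb_le_of_abs (s + h) (3 + (s + h)) (cc_le_three_add _)
        have h5 : bb s = (3 + s) ^ 2 / 4 := by unfold bb; rw [hcs]
        rw [h5]
        nlinarith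

/-! ### The sequences of parameters -/

/-- the constants `M k` -/
noncomputable def MM (C : ℝ) : ℕ → ℝ
  | 0 => 1
  | (k + 1) => MM C k + 126 * (576 * (MM C k + 2) * C ^ 2 + 8)

/-- the constants `A k` -/
noncomputable def AA (C : ℝ) (k : ℕ) : ℝ := 576 * (MM C k + 2) * C ^ 2 + 8

lemma MM_succ (C : ℝ) (k : ℕ) : MM C (k + 1) = MM C k + 126 * AA C k := rfl

lemma MM_ge (C : ℝ) (hC : 1 ≤ C) (k : ℕ) : 1 ≤ MM C k := by
  induction k with
  | zero => simp [MM]
  | succ k ih =>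
    rw [MM_succ]
    have : 0 ≤ AA C k := by unfold AA; positivity
    linarith

lemma AA_ge (C : ℝ) (hC : 1 ≤ C) (k : ℕ) : 8 ≤ AA C k := by
  have h1 := MM_ge C hC k
  unfold AA
  have : 0 ≤ 576 * (MM C k + 2) * C ^ 2 := by positivity
  linarith

/-- the radii `R k` -/
noncomputable def RR (δ θ C e : ℝ) : ℕ → ℝ
  | 0 => θ * e / (10 ^ 4 * AA C 0)
  | (k + 1) => RR δ θ C e k ^ 4 * δ ^ 2 / (10 ^ 4 * AA C (k + 1))

/-- the sizes `ε k` -/
noncomputable def EE (δ θ C e : ℝ) (k : ℕ) : ℝ := δ * RR δ θ C e k ^ 2 / 8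

section params

variable {δ θ C e : ℝ}

lemma RR_pos (hδ : 0 < δ) (hθ : 0 < θ) (hC : 1 ≤ C) (he : 0 < e) (k : ℕ) :
    0 < RR δ θ C e k := by
  have hA := fun k => AA_ge C hC k
  induction k with
  | zero =>
    have := hA 0
    unfold RR
    positivity
  | succ k ih =>
    have := hA (k + 1)
    unfold RR
    positivity

lemma AR_zero (hC : 1 ≤ C) : AA C 0 * RR δ θ C e 0 = θ * e / 10 ^ 4 := by
  have := AA_ge C hC 0
  have h0 : AA C 0 ≠ 0 := by linarith
  unfold RR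
  field_simp

lemma AR_succ (hC : 1 ≤ C) (k : ℕ) :
    AA C (k + 1) * RR δ θ C e (k + 1) = RR δ θ C e k ^ 4 * δ ^ 2 / 10 ^ 4 := by
  have := AA_ge C hC (k + 1)
  have h0 : AA C (k + 1) ≠ 0 := by linarith
  conv_lhs => unfold RR
  field_simp

lemma RR_le_one (hδ : 0 < δ) (hδ1 : δ ≤ 1) (hθ : 0 < θ) (hθ1 : θ ≤ 1) (hC : 1 ≤ C) (he : 0 < e)
    (he1 : e ≤ 1) (k : ℕ) : RR δ θ C e k ≤ 1 := by
  induction k with
  | zero =>
    have h1 := AR_zero (δ := δ) (θ := θ) (e := e) hC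
    have h2 := AA_ge C hC 0
    have h3 := RR_pos (C := C) hδ hθ hC he 0
    have h4 : θ * e ≤ 1 := by nlinarith
    nlinarith
  | succ k ih =>
    have h1 := AR_succ (δ := δ) (θ := θ) (e := e) hC k
    have h2 := AA_ge C hC (k + 1)
    have h3 := RR_pos (C := C) hδ hθ hC he (k + 1)
    have h3' := RR_pos (C := C) hδ hθ hC he k
    have h4 : RR δ θ C e k ^ 4 ≤ 1 := pow_le_one₀ h3'.le ih
    have h5 : δ ^ 2 ≤ 1 := pow_le_one₀ hδ.le hδ1
    have h6 : RR δ θ C e k ^ 4 * δ ^ 2 ≤ 1 := by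
      calc RR δ θ C e k ^ 4 * δ ^ 2 ≤ 1 * 1 := mul_le_mul h4 h5 (by positivity) (by norm_num)
        _ = 1 := by norm_num
    nlinarith

/-- the quantitative facts about the sequences -/
lemma facts (hδ : 0 < δ) (hδ1 : δ ≤ 1) (hθ : 0 < θ) (hθ1 : θ ≤ 1) (hC : 1 ≤ C) (he : 0 < e)
    (he1 : e ≤ 1 / 2) (k : ℕ) :
    2 * RR δ θ C e (k + 1) ≤ RR δ θ C e k ∧
    2 * (AA C (k + 1) * EE δ θ C e (k + 1)) ≤ AA C k * EE δ θ C e k ∧
    20 * AA C (k + 1) * EE δ θ C e (k + 1) ^ 2 ≤ AA C k * EE δ θ C e k ^ 2 ∧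
    8 * RR δ θ C e (k + 1) ≤ EE δ θ C e k ^ 2 := by
  have hr0 := RR_pos (C := C) hδ hθ hC he k
  have hr1 := RR_le_one (C := C) hδ hδ1 hθ hθ1 hC he (by linarith) k
  have hs0 := RR_pos (C := C) hδ hθ hC he (k + 1)
  have hs1 := RR_le_one (C := C) hδ hδ1 hθ hθ1 hC he (by linarith) (k + 1)
  have hA := AA_ge C hC k
  have hB := AA_ge C hC (k + 1)
  have hAR := AR_succ (δ := δ) (θ := θ) (e := e) hC k
  unfold EE
  set r := RR δ θ C e k with hr
  set s := RR δ θ C e (k + 1) with hs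
  set a := AA C k with ha
  set b := AA C (k + 1) with hb
  -- `b * s = r ^ 4 * δ ^ 2 / 10 ^ 4`
  have hδ2 : δ ^ 2 ≤ δ := by nlinarith
  have hr2 : r ^ 2 ≤ r := by nlinarith
  have hr4 : r ^ 4 ≤ r ^ 2 := by
    have : r ^ 4 = r ^ 2 * r ^ 2 := by ring
    nlinarith [sq_nonneg r]
  have hq0 : 0 < r ^ 4 * δ ^ 2 := by positivity
  have h8s : 8 * s ≤ r ^ 4 * δ ^ 2 / 10 ^ 4 := by
    rw [← hAR]; nlinarith
  have hq1 : r ^ 4 * δ ^ 2 ≤ δ * r ^ 2 := by
    calc r ^ 4 * δ ^ 2 ≤ r ^ 2 * δ := mul_le_mul hr4 hδ2 (by positivity) (by positivity)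
      _ = δ * r ^ 2 := by ring
  have hq2 : δ * r ^ 2 ≤ r := by nlinarith
  have hbs : b * (δ * s ^ 2 / 8) ≤ r ^ 4 * δ ^ 2 / (8 * 10 ^ 4) := by
    have h1 : δ * s ^ 2 ≤ s := by
      have : s ^ 2 ≤ s := by nlinarith
      nlinarith [sq_nonneg s]
    have h2 : b * (δ * s ^ 2 / 8) ≤ b * (s / 8) := by
      apply mul_le_mul_of_nonneg_left _ (by linarith)
      linarith
    have h3 : b * (s / 8) = r ^ 4 * δ ^ 2 / (8 * 10 ^ 4) := by
      have : b * (s / 8) = (b * s) / 8 := by ring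
      rw [this, hAR]; ring
    linarith
  refine ⟨?_, ?_, ?_, ?_⟩
  · -- Rhalf
    linarith
  · -- (x)
    have h1 : 8 * (δ * r ^ 2 / 8) ≤ a * (δ * r ^ 2 / 8) :=
      mul_le_mul_of_nonneg_right hA (by positivity)
    have h2 : r ^ 4 * δ ^ 2 / (8 * 10 ^ 4) ≤ δ * r ^ 2 / (8 * 10 ^ 4) := by
      apply div_le_div_of_nonneg_right hq1 (by norm_num)
    have h3 : 0 < δ * r ^ 2 := by positivity
    linarith
  · -- Adec
    have h1 : 8 * (δ * r ^ 2 / 8) ^ 2 ≤ a * (δ * r ^ 2 / 8) ^ 2 :=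
      mul_le_mul_of_nonneg_right hA (by positivity)
    have h2 : (δ * r ^ 2 / 8) ^ 2 = r ^ 4 * δ ^ 2 / 64 := by ring
    have h3 : δ * s ^ 2 / 8 ≤ 1 := by
      have : s ^ 2 ≤ 1 := pow_le_one₀ hs0.le hs1
      nlinarith [sq_nonneg s]
    have h4 : b * (δ * s ^ 2 / 8) ^ 2 ≤ r ^ 4 * δ ^ 2 / (8 * 10 ^ 4) := by
      have h5 : b * (δ * s ^ 2 / 8) ^ 2 = b * (δ * s ^ 2 / 8) * (δ * s ^ 2 / 8) := by ring
      rw [h5]
      calc b * (δ * s ^ 2 / 8) * (δ * s ^ 2 / 8) ≤ b * (δ * s ^ 2 / 8) * 1 :=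
            mul_le_mul_of_nonneg_left h3 (by positivity)
        _ ≤ _ := by rw [mul_one]; exact hbs
    have h6 : 20 * b * (δ * s ^ 2 / 8) ^ 2 = 20 * (b * (δ * s ^ 2 / 8) ^ 2) := by ring
    rw [h6]
    rw [h2] at h1 ⊢
    linarith
  · -- Rdec
    have h2 : (δ * r ^ 2 / 8) ^ 2 = r ^ 4 * δ ^ 2 / 64 := by ring
    rw [h2]
    linarith

lemma facts0 (hδ : 0 < δ) (hδ1 : δ ≤ 1) (hθ : 0 < θ) (hθ1 : θ ≤ 1) (hC : 1 ≤ C) (he : 0 < e)
    (he1 : e ≤ 1 / 2) :
    100 * (AA C 0 * EE δ θ C e 0) ≤ e ∧ 140 * (AA C 0 * EE δ θ C e 0) ≤ 1 / 2 ∧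
    20 * (AA C 0 * EE δ θ C e 0 ^ 2) ≤ 1 / 2 ∧
    20 * AA C 0 * EE δ θ C e 0 ^ 2 + 3 * RR δ θ C e 0 ≤ θ ∧ 7 * (AA C 0 * EE δ θ C e 0) ≤ 1 := by
  have hr0 := RR_pos (C := C) hδ hθ hC he 0
  have hr1 := RR_le_one (C := C) hδ hδ1 hθ hθ1 hC he (by linarith) 0
  have hA := AA_ge C hC 0
  have hAR := AR_zero (δ := δ) (θ := θ) (e := e) hC
  unfold EE
  set r := RR δ θ C e 0 with hr
  set a := AA C 0 with ha
  have h1 : δ * r ^ 2 ≤ r := by
    have : r ^ 2 ≤ r := by nlinarith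
    nlinarith [sq_nonneg r]
  have h2 : a * (δ * r ^ 2 / 8) ≤ θ * e / (8 * 10 ^ 4) := by
    have h3 : a * (δ * r ^ 2 / 8) ≤ a * (r / 8) := by
      apply mul_le_mul_of_nonneg_left _ (by linarith)
      linarith
    have h4 : a * (r / 8) = θ * e / (8 * 10 ^ 4) := by
      have : a * (r / 8) = (a * r) / 8 := by ring
      rw [this, hAR]; ring
    linarith
  have hθe : θ * e ≤ e := by nlinarith
  have hθe2 : θ * e ≤ θ := by nlinarith
  have h5 : δ * r ^ 2 / 8 ≤ 1 := by linarith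
  have h6 : a * (δ * r ^ 2 / 8) ^ 2 ≤ θ * e / (8 * 10 ^ 4) := by
    have h5' : a * (δ * r ^ 2 / 8) ^ 2 = a * (δ * r ^ 2 / 8) * (δ * r ^ 2 / 8) := by ring
    rw [h5']
    calc a * (δ * r ^ 2 / 8) * (δ * r ^ 2 / 8) ≤ a * (δ * r ^ 2 / 8) * 1 :=
          mul_le_mul_of_nonneg_left h5 (by positivity)
      _ ≤ _ := by rw [mul_one]; exact h2
  have h8 : 8 * r ≤ θ * e / 10 ^ 4 := by
    rw [← hAR]; nlinarith
  refine ⟨by linarith, by linarith, by linarith, ?_, by linarith⟩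
  have : 20 * a * (δ * r ^ 2 / 8) ^ 2 = 20 * (a * (δ * r ^ 2 / 8) ^ 2) := by ring
  rw [this]
  linarith

lemma EE_pos (hδ : 0 < δ) (hθ : 0 < θ) (hC : 1 ≤ C) (he : 0 < e) (k : ℕ) :
    0 < EE δ θ C e k := by
  have := RR_pos (C := C) hδ hθ hC he k
  unfold EE
  positivity

lemma EE_le (hδ : 0 < δ) (hδ1 : δ ≤ 1) (hθ : 0 < θ) (hθ1 : θ ≤ 1) (hC : 1 ≤ C) (he : 0 < e)
    (he1 : e ≤ 1 / 2) (k : ℕ) : EE δ θ C e k ≤ 1 / 8 := by
  have hr0 := RR_pos (C := C) hδ hθ hC he k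
  have hr1 := RR_le_one (C := C) hδ hδ1 hθ hθ1 hC he (by linarith) k
  have : RR δ θ C e k ^ 2 ≤ 1 := pow_le_one₀ hr0.le hr1
  unfold EE
  nlinarith

lemma AE_le (hδ : 0 < δ) (hδ1 : δ ≤ 1) (hθ : 0 < θ) (hθ1 : θ ≤ 1) (hC : 1 ≤ C) (he : 0 < e)
    (he1 : e ≤ 1 / 2) (k : ℕ) : AA C k * EE δ θ C e k ≤ AA C 0 * EE δ θ C e 0 := by
  induction k with
  | zero => exact le_rfl
  | succ k ih =>
    have h1 := (facts (C := C) hδ hδ1 hθ hθ1 hC he he1 k).2.1
    have h2 := EE_pos (C := C) hδ hθ hC he (k + 1)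
    have h3 := AA_ge C hC (k + 1)
    have h4 : 0 ≤ AA C (k + 1) * EE δ θ C e (k + 1) := by positivity
    linarith

end params

/-! ### The functions -/

/-- the functions `Φ k` -/
noncomputable def PP (A ε : ℕ → ℝ) (g : ℕ → E → ℝ) : ℕ → E → ℝ
  | 0, x => ‖x‖ ^ 2 - 1
  | (k + 1), x => PP A ε g k x + 10 * A k * ε k ^ 2 * bb (g k x / ε k)

lemma PP_zero (A ε : ℕ → ℝ) (g : ℕ → E → ℝ) (x : E) : PP A ε g 0 x = ‖x‖ ^ 2 - 1 := rfl

lemma PP_succ (A ε : ℕ → ℝ) (g : ℕ → E → ℝ) (k : ℕ) (x : E) :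
    PP A ε g (k + 1) x = PP A ε g k x + 10 * A k * ε k ^ 2 * bb (g k x / ε k) := rfl

lemma PP_cont (A ε : ℕ → ℝ) (g : ℕ → E → ℝ) (hg : ∀ k, Continuous (g k)) (k : ℕ) :
    Continuous (PP A ε g k) := by
  induction k with
  | zero =>
    have : PP A ε g 0 = fun x => ‖x‖ ^ 2 - 1 := by funext x; rfl
    rw [this]
    fun_prop
  | succ k ih =>
    have : PP A ε g (k + 1) = fun x => PP A ε g k x + 10 * A k * ε k ^ 2 * bb (g k x / ε k) := by
      funext x; rfl
    rw [this]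
    have h1 := hg k
    have h2 := bb_cont
    fun_prop

/-- the Lipschitz estimate from the expansion -/
lemma gap_lip {δ θ C : ℝ} (hδ : 0 < δ) {g : E → ℝ} (hg : Gap δ θ C g) (p h : E) (hp : ‖p‖ ≤ 1)
    (hh : ‖h‖ ≤ 1) : |g (p + h) - g p| ≤ 7 * ‖h‖ := by
  obtain ⟨G, h1, h2, h3, -⟩ := hg.expand p hp
  have h4 := h1 h
  have h5 := h2 h
  have h6 := h3 h
  have h7 : |(G h).re| ≤ ‖G h‖ := Complex.abs_re_le_norm _
  have h8 := abs_le.mp (h7.trans h4)
  have h9 : 0 ≤ ‖h‖ := norm_nonneg h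
  have h10 : ‖h‖ ^ 2 ≤ ‖h‖ := by nlinarith
  have h11 : 0 ≤ δ * ‖h‖ ^ 2 := by positivity
  rw [abs_le]
  constructor <;> linarith [h8.1, h8.2]

end SysEx

open SysEx

theorem existsSys : ExistsSys := by
  intro δ θ C g hδ hδ1 hθ hθ1 hC hgap
  set e : ℝ := 1 / (2 * C) with he_def
  have hC0 : 0 < C := by linarith
  have he : 0 < e := by positivity
  have he1 : e ≤ 1 / 2 := by
    rw [he_def]
    apply one_div_le_one_div_of_le <;> linarith
  have heC : C * e ≤ 1 / 2 := by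
    have : C * e = 1 / 2 := by rw [he_def]; field_simp
    exact this.le
  set A : ℕ → ℝ := AA C with hA_def
  set M : ℕ → ℝ := MM C with hM_def
  set R : ℕ → ℝ := RR δ θ C e with hR_def
  set ε : ℕ → ℝ := EE δ θ C e with hε_def
  set Φ : ℕ → E → ℝ := PP A ε g with hΦ_def
  have hR0 : ∀ k, 0 < R k := RR_pos hδ hθ hC he
  have hR1 : ∀ k, R k ≤ 1 := RR_le_one hδ hδ1 hθ hθ1 hC he (by linarith)
  have hε0 : ∀ k, 0 < ε k := EE_pos hδ hθ hC he
  have hε1 : ∀ k, ε k ≤ 1 / 8 := EE_le hδ hδ1 hθ hθ1 hC he he1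
  have hA8 : ∀ k, 8 ≤ A k := AA_ge C hC
  have hAM : ∀ k, A k = 576 * (M k + 2) * C ^ 2 + 8 := fun k => rfl
  have hM1 : ∀ k, 1 ≤ M k := MM_ge C hC
  have hMs : ∀ k, M (k + 1) = M k + 126 * A k := MM_succ C
  have hf : ∀ k, 2 * R (k + 1) ≤ R k ∧ 2 * (A (k + 1) * ε (k + 1)) ≤ A k * ε k ∧
    20 * A (k + 1) * ε (k + 1) ^ 2 ≤ A k * ε k ^ 2 ∧ 8 * R (k + 1) ≤ ε k ^ 2 :=
    facts hδ hδ1 hθ hθ1 hC he he1
  obtain ⟨hy, hz1, hz2, hsh, h7⟩ :
      100 * (A 0 * ε 0) ≤ e ∧ 140 * (A 0 * ε 0) ≤ 1 / 2 ∧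
      20 * (A 0 * ε 0 ^ 2) ≤ 1 / 2 ∧ 20 * A 0 * ε 0 ^ 2 + 3 * R 0 ≤ θ ∧ 7 * (A 0 * ε 0) ≤ 1 :=
    facts0 hδ hδ1 hθ hθ1 hC he he1
  have hAE : ∀ k, A k * ε k ≤ A 0 * ε 0 := AE_le hδ hδ1 hθ hθ1 hC he he1
  have hAE0 : ∀ k, 0 < A k * ε k := fun k => mul_pos (by linarith [hA8 k]) (hε0 k)
  have hAEE0 : ∀ k, 0 < A k * ε k ^ 2 := fun k => by
    have := hA8 k
    have := hε0 k
    positivity
  have hΦ0 : ∀ x, Φ 0 x = ‖x‖ ^ 2 - 1 := fun x => rfl
  have hΦs : ∀ k x, Φ (k + 1) x = Φ k x + 10 * A k * ε k ^ 2 * bb (g k x / ε k) := fun k x => rfl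
  have hmono : ∀ k x, Φ k x ≤ Φ (k + 1) x := by
    intro k x
    rw [hΦs]
    have h1 := bb_nonneg (g k x / ε k)
    have h2 := hAEE0 k
    have h3 : 0 ≤ 10 * A k * ε k ^ 2 * bb (g k x / ε k) := by
      have : 10 * A k * ε k ^ 2 * bb (g k x / ε k) = 10 * (A k * ε k ^ 2) * bb (g k x / ε k) := by
        ring
      rw [this]; positivity
    linarith
  have hup : ∀ k x, Φ (k + 1) x ≤ Φ k x + 10 * A k * ε k ^ 2 := by
    intro k x
    rw [hΦs]
    have h1 := bb_le_one (g k x / ε k)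
    have h2 := hAEE0 k
    have h3 : 10 * A k * ε k ^ 2 * bb (g k x / ε k) ≤ 10 * A k * ε k ^ 2 * 1 := by
      apply mul_le_mul_of_nonneg_left h1
      have : 10 * A k * ε k ^ 2 = 10 * (A k * ε k ^ 2) := by ring
      rw [this]; positivity
    linarith
  have hge : ∀ k x, ‖x‖ ^ 2 - 1 ≤ Φ k x := by
    intro k x
    induction k with
    | zero => rw [hΦ0]
    | succ k ih => exact ih.trans (hmono k x)
  have hhalf' : ∀ k x, Φ k x ≤ ‖x‖ ^ 2 - 1 + 20 * (A 0 * ε 0 ^ 2) - 20 * (A k * ε k ^ 2) := by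
    intro k x
    induction k with
    | zero => rw [hΦ0]; linarith
    | succ k ih =>
      have h1 := hup k x
      have h2 := (hf k).2.2.1
      have h3 := hAEE0 k
      have h4 : 20 * A (k + 1) * ε (k + 1) ^ 2 = 20 * (A (k + 1) * ε (k + 1) ^ 2) := by ring
      have h5 : 10 * A k * ε k ^ 2 = 10 * (A k * ε k ^ 2) := by ring
      rw [h4] at h2
      rw [h5] at h1
      linarith
  have hhalf : ∀ k x, ‖x‖ ≤ 1 / 2 → Φ k x ≤ 0 := by
    intro k x hx
    have h1 := hhalf' k x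
    have h2 := hAEE0 k
    have h3 : ‖x‖ ^ 2 ≤ 1 / 4 := by nlinarith [norm_nonneg x]
    linarith
  refine ⟨e, Φ, ε, A, M, R, ?_⟩
  refine
    { δ0 := hδ, δ1 := hδ1, θ0 := hθ, θ1 := hθ1, C1 := hC, e0 := he.le, eC := heC, gap := hgap,
      base := hΦ0, cont := PP_cont A ε g fun k => (hgap k).cont, mono := hmono, up := hup,
      dip := ?_, far := ?_, semi := ?_, half := hhalf, star := ?_, R0 := hR0, R1 := hR1,
      Rhalf := fun k => (hf k).1, eps := fun k => rfl, M1 := hM1,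
      Alarge := fun k => (hAM k).ge, Aeps := ?_, Adec := fun k => (hf k).2.2.1,
      Rdec := fun k => (hf k).2.2.2, shallow := hsh }
  · -- dip
    intro k x hx
    rw [hΦs, bb_one, mul_one]
    rw [abs_div, abs_of_pos (hε0 k)]
    exact (div_le_one (hε0 k)).mpr hx
  · -- far
    intro k x hx
    rw [hΦs, bb_zero, mul_zero, add_zero]
    rw [abs_div, abs_of_pos (hε0 k)]
    exact (le_div_iff₀ (hε0 k)).mpr hx
  · -- semi
    have key : ∀ k (p : E), ‖p‖ ≤ 1 → ∃ L : E →L[ℂ] ℂ,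
        (∀ h, ‖L h - 2 * inner ℂ p h‖ ≤ (100 * (A 0 * ε 0) - 100 * (A k * ε k)) * ‖h‖) ∧
        ∀ h, ‖h‖ ≤ 1 → Φ k (p + h) ≤ Φ k p + (L h).re + M k * ‖h‖ ^ 2 := by
      intro k
      induction k with
      | zero =>
        intro p _
        refine ⟨(2 : ℂ) • innerSL ℂ p, fun h => ?_, fun h _ => ?_⟩
        · simp
        · rw [hΦ0, hΦ0]
          have h1 : ‖p + h‖ ^ 2 = ‖p‖ ^ 2 + 2 * RCLike.re (inner ℂ p h) + ‖h‖ ^ 2 :=
            norm_add_sq (𝕜 := ℂ) p h
          have h2 : (((2 : ℂ) • innerSL ℂ p) h).re = 2 * RCLike.re (inner ℂ p h) := by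
            simp
          have h3 : M 0 = 1 := rfl
          rw [h1, h2, h3]
          linarith
      | succ k ih =>
        intro p hp
        obtain ⟨L, hL1, hL2⟩ := ih p hp
        obtain ⟨G, hG1, hG2, hG3, -⟩ := (hgap k).expand p hp
        obtain ⟨β, hβ, hb⟩ := bb_semi (g k p / ε k)
        set c : ℝ := 10 * (A k * ε k) * β with hc
        have hcabs : |c| ≤ 10 * (A k * ε k) := by
          rw [hc, abs_mul, abs_of_pos (by have := hAE0 k; positivity)]
          have := hAE0 k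
          nlinarith
        refine ⟨L + (c : ℂ) • G, fun h => ?_, fun h hh => ?_⟩
        · have h1 : (L + (c : ℂ) • G) h - 2 * inner ℂ p h
              = (L h - 2 * inner ℂ p h) + (c : ℂ) * G h := by
            simp only [ContinuousLinearMap.add_apply, ContinuousLinearMap.smul_apply, smul_eq_mul]
            ring
          rw [h1]
          have h2 : ‖(c : ℂ) * G h‖ ≤ 50 * (A k * ε k) * ‖h‖ := by
            rw [norm_mul, Complex.norm_real, Real.norm_eq_abs]
            calc |c| * ‖G h‖ ≤ 10 * (A k * ε k) * (5 * ‖h‖) :=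
                  mul_le_mul hcabs (hG1 h) (norm_nonneg _) (by have := hAE0 k; positivity)
              _ = 50 * (A k * ε k) * ‖h‖ := by ring
          have h3 := (hf k).2.1
          have h4 : (100 * (A 0 * ε 0) - 100 * (A k * ε k)) * ‖h‖ + 50 * (A k * ε k) * ‖h‖
              ≤ (100 * (A 0 * ε 0) - 100 * (A (k + 1) * ε (k + 1))) * ‖h‖ := by
            rw [← add_mul]
            apply mul_le_mul_of_nonneg_right _ (norm_nonneg h)
            linarith
          calc ‖(L h - 2 * inner ℂ p h) + (c : ℂ) * G h‖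
              ≤ ‖L h - 2 * inner ℂ p h‖ + ‖(c : ℂ) * G h‖ := norm_add_le _ _
            _ ≤ _ := by linarith [hL1 h]
        · set Δ : ℝ := g k (p + h) - g k p with hΔ
          have hΔ7 : |Δ| ≤ 7 * ‖h‖ := gap_lip hδ (hgap k) p h hp hh
          have hΔ2 : Δ ^ 2 ≤ 49 * ‖h‖ ^ 2 := by
            rw [← sq_abs]
            nlinarith [abs_nonneg Δ, norm_nonneg h]
          have hεne : ε k ≠ 0 := (hε0 k).ne'
          have h1 : g k (p + h) / ε k = g k p / ε k + Δ / ε k := by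
            rw [hΔ]; ring
          have h2 := hb (Δ / ε k)
          rw [← h1] at h2
          have h3 : 10 * A k * ε k ^ 2 * bb (g k (p + h) / ε k) ≤
              10 * A k * ε k ^ 2 * bb (g k p / ε k) + c * Δ + 10 / 4 * A k * Δ ^ 2 := by
            have h4 : 10 * A k * ε k ^ 2 * bb (g k (p + h) / ε k) ≤
                10 * A k * ε k ^ 2 * (bb (g k p / ε k) + β * (Δ / ε k) + (Δ / ε k) ^ 2 / 4) := by
              apply mul_le_mul_of_nonneg_left h2
              have := hA8 k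
              positivity
            have h5 : 10 * A k * ε k ^ 2 * (bb (g k p / ε k) + β * (Δ / ε k) + (Δ / ε k) ^ 2 / 4)
                = 10 * A k * ε k ^ 2 * bb (g k p / ε k) + c * Δ + 10 / 4 * A k * Δ ^ 2 := by
              rw [hc]
              field_simp
            rw [h5] at h4
            exact h4
          have hη0 : 0 ≤ Δ - (G h).re := by
            have h4 := hG2 h
            have h5 : 0 ≤ δ * ‖h‖ ^ 2 := by positivity
            rw [hΔ]; linarith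
          have hη1 : Δ - (G h).re ≤ 2 * ‖h‖ ^ 2 := by
            have h4 := hG3 h
            rw [hΔ]; linarith
          have h6 : c * Δ ≤ c * (G h).re + 10 * (A k * ε k) * (2 * ‖h‖ ^ 2) := by
            have h7 : c * (Δ - (G h).re) ≤ 10 * (A k * ε k) * (2 * ‖h‖ ^ 2) := by
              calc c * (Δ - (G h).re) ≤ |c| * (Δ - (G h).re) :=
                    mul_le_mul_of_nonneg_right (le_abs_self c) hη0
                _ ≤ 10 * (A k * ε k) * (2 * ‖h‖ ^ 2) :=
                    mul_le_mul hcabs hη1 hη0 (by have := hAE0 k; positivity)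
            linarith
          have h8 : ((L + (c : ℂ) • G) h).re = (L h).re + c * (G h).re := by
            simp only [ContinuousLinearMap.add_apply, ContinuousLinearMap.smul_apply, smul_eq_mul,
              Complex.add_re, Complex.re_ofReal_mul]
          rw [hΦs, hΦs, h8, hMs]
          have h9 := hL2 h hh
          have h10 : 10 * (A k * ε k) * (2 * ‖h‖ ^ 2) ≤ 5 / 2 * A k * ‖h‖ ^ 2 := by
            have h11 := hε1 k
            have h12 : A k * ε k ≤ A k * (1 / 8) :=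
              mul_le_mul_of_nonneg_left h11 (by linarith [hA8 k])
            nlinarith [sq_nonneg ‖h‖]
          have h13 : 10 / 4 * A k * Δ ^ 2 ≤ 10 / 4 * A k * (49 * ‖h‖ ^ 2) := by
            apply mul_le_mul_of_nonneg_left hΔ2
            linarith [hA8 k]
          have h14 : 0 ≤ A k * ‖h‖ ^ 2 := by
            have := hA8 k
            positivity
          linarith
    intro k p hp
    obtain ⟨L, h1, h2⟩ := key k p hp
    refine ⟨L, fun h => (h1 h).trans ?_, h2⟩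
    apply mul_le_mul_of_nonneg_right _ (norm_nonneg h)
    linarith [hAE0 k]
  · -- star
    have key : ∀ k (x : E) (s : ℝ), ‖x‖ ≤ 1 → 0 ≤ s → s ≤ 1 →
        Φ k (s • x) ≤ Φ k x
          - (1 - s) * ‖x‖ * ((1 + s) * ‖x‖ - 140 * (A 0 * ε 0 - A k * ε k)) := by
      intro k x s hx hs0 hs1
      induction k with
      | zero =>
        rw [hΦ0, hΦ0, norm_smul, Real.norm_eq_abs, abs_of_nonneg hs0]
        have : (s * ‖x‖) ^ 2 - 1 = ‖x‖ ^ 2 - 1
            - (1 - s) * ‖x‖ * ((1 + s) * ‖x‖ - 140 * (A 0 * ε 0 - A 0 * ε 0)) := by ring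
        exact this.le
      | succ k ih =>
        have h1 : |g k (s • x) - g k x| ≤ 7 * ((1 - s) * ‖x‖) := by
          have h2 : ‖(s - 1) • x‖ = (1 - s) * ‖x‖ := by
            rw [norm_smul, Real.norm_eq_abs, abs_of_nonpos (by linarith)]
            ring
          have h3 : ‖(s - 1) • x‖ ≤ 1 := by
            rw [h2]
            nlinarith [norm_nonneg x]
          have h4 := gap_lip hδ (hgap k) x ((s - 1) • x) hx h3
          have h5 : x + (s - 1) • x = s • x := by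
            rw [sub_smul, one_smul]; abel
          rw [h5, h2] at h4
          exact h4
        have h2 : 10 * A k * ε k ^ 2 * bb (g k (s • x) / ε k) ≤
            10 * A k * ε k ^ 2 * bb (g k x / ε k) + 70 * (A k * ε k) * ((1 - s) * ‖x‖) := by
          have h3 := bb_lip (g k (s • x) / ε k) (g k x / ε k)
          have h4 : |g k (s • x) / ε k - g k x / ε k| = |g k (s • x) - g k x| / ε k := by
            rw [← sub_div, abs_div, abs_of_pos (hε0 k)]
          rw [h4] at h3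
          have h5 := (le_abs_self _).trans h3
          have h6 : |g k (s • x) - g k x| / ε k ≤ 7 * ((1 - s) * ‖x‖) / ε k :=
            div_le_div_of_nonneg_right h1 (hε0 k).le
          have h7 : bb (g k (s • x) / ε k) ≤
              bb (g k x / ε k) + 7 * ((1 - s) * ‖x‖) / ε k := by linarith
          have h8 : 10 * A k * ε k ^ 2 * bb (g k (s • x) / ε k) ≤
              10 * A k * ε k ^ 2 * (bb (g k x / ε k) + 7 * ((1 - s) * ‖x‖) / ε k) := by
            apply mul_le_mul_of_nonneg_left h7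
            have := hA8 k
            positivity
          have hεne : ε k ≠ 0 := (hε0 k).ne'
          have h9 : 10 * A k * ε k ^ 2 * (bb (g k x / ε k) + 7 * ((1 - s) * ‖x‖) / ε k)
              = 10 * A k * ε k ^ 2 * bb (g k x / ε k) + 70 * (A k * ε k) * ((1 - s) * ‖x‖) := by
            field_simp
            ring
          rw [h9] at h8
          exact h8
        rw [hΦs, hΦs]
        have h3 := (hf k).2.1
        have h4 : 0 ≤ (1 - s) * ‖x‖ := mul_nonneg (by linarith) (norm_nonneg x)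
        have h5 : 70 * (A k * ε k) * ((1 - s) * ‖x‖) ≤
            140 * (A k * ε k - A (k + 1) * ε (k + 1)) * ((1 - s) * ‖x‖) := by
          apply mul_le_mul_of_nonneg_right _ h4
          linarith
        nlinarith
    intro k x s hs0 hs1 hx
    have hx1 : ‖x‖ ≤ 1 := by
      have h1 := hge k x
      have h2 : ‖x‖ ^ 2 ≤ 1 := by linarith
      nlinarith [norm_nonneg x]
    rcases le_or_gt (1 / 2) ‖x‖ with h1 | h1
    · have h2 := key k x s hx1 hs0 hs1
      have h3 : 0 ≤ (1 - s) * ‖x‖ := mul_nonneg (by linarith) (norm_nonneg x)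
      have h4 : 0 ≤ (1 + s) * ‖x‖ - 140 * (A 0 * ε 0 - A k * ε k) := by
        have h5 := hAE0 k
        have h6 : 1 / 2 ≤ (1 + s) * ‖x‖ := by nlinarith
        linarith
      have h5 := mul_nonneg h3 h4
      linarith
    · apply hhalf
      rw [norm_smul, Real.norm_eq_abs, abs_of_nonneg hs0]
      nlinarith [norm_nonneg x]
  · -- Aeps
    intro k
    have h1 := hAE k
    have h2 : 7 * A k * ε k = 7 * (A k * ε k) := by ring
    rw [h2]
    linarith

end Pool.Agent.R233.CH
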