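import Pool.Agent.R233.CH.Exact
import Pool.Agent.R233.CH.SysEx
import Pool.Agent.R233.CH.Approx
import Pool.Agent.R233.CH.Fin

/-!
The conclusion in the terms of the polynomial hull and the rational hull.
-/

set_option autoImplicit false

open Set Filter Topology

namespace Pool.Agent.R233.CH

theorem concl (h : ExistsGaps) : Final := final (hitting h existsSys) approxInv

theorem eval_continuous (p : MvPolynomial (Fin 2) ℂ) :
    Continuous fun w : Fin 2 → ℂ => MvPolynomial.eval w p :=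
  MvPolynomial.continuous_eval p

/-- the conclusion with the hulls written in the standard way -/
theorem concl_hulls (h : ExistsGaps) :
    ∃ X : Set (Fin 2 → ℂ), Nonempty (X ≃ₜ cantorSet) ∧
      (interior {z : Fin 2 → ℂ | ∀ p : MvPolynomial (Fin 2) ℂ,
        MvPolynomial.eval z p ∈ (fun w => MvPolynomial.eval w p) '' X}).Nonempty ∧
      {z : Fin 2 → ℂ | ∀ p : MvPolynomial (Fin 2) ℂ,
        ‖MvPolynomial.eval z p‖ ≤ sSup ((fun w => ‖MvPolynomial.eval w p‖) '' X)} =
      {z : Fin 2 → ℂ | ∀ p : MvPolynomial (Fin 2) ℂ,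
        MvPolynomial.eval z p ∈ (fun w => MvPolynomial.eval w p) '' X} := by
  obtain ⟨K, ⟨hK⟩, hint, -, heq⟩ := concl h
  have hcs : CompactSpace K := hK.symm.compactSpace
  have hcomp : IsCompact K := isCompact_iff_compactSpace.2 hcs
  have hne : K.Nonempty := ⟨(hK.symm fun _ => true).1, (hK.symm fun _ => true).2⟩
  have hrat : {z : Fin 2 → ℂ | ∀ p : MvPolynomial (Fin 2) ℂ,
      MvPolynomial.eval z p = 0 → ∃ w ∈ K, MvPolynomial.eval w p = 0} =
      {z : Fin 2 → ℂ | ∀ p : MvPolynomial (Fin 2) ℂ,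
        MvPolynomial.eval z p ∈ (fun w => MvPolynomial.eval w p) '' K} := by
    ext z
    constructor
    · intro hz p
      obtain ⟨w, hw, hw2⟩ := hz (p - MvPolynomial.C (MvPolynomial.eval z p)) (by simp)
      refine ⟨w, hw, ?_⟩
      simp only [map_sub, MvPolynomial.eval_C] at hw2
      exact sub_eq_zero.1 hw2
    · intro hz p hp
      obtain ⟨w, hw, hw2⟩ := hz p
      simp only at hw2
      exact ⟨w, hw, hw2.trans hp⟩
  have hpoly : {z : Fin 2 → ℂ | ∀ p : MvPolynomial (Fin 2) ℂ,
      ∃ w ∈ K, ‖MvPolynomial.eval z p‖ ≤ ‖MvPolynomial.eval w p‖} =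
      {z : Fin 2 → ℂ | ∀ p : MvPolynomial (Fin 2) ℂ,
        ‖MvPolynomial.eval z p‖ ≤ sSup ((fun w => ‖MvPolynomial.eval w p‖) '' K)} := by
    ext z
    constructor
    · intro hz p
      obtain ⟨w, hw, hw2⟩ := hz p
      refine hw2.trans (le_csSup ?_ ⟨w, hw, rfl⟩)
      exact (hcomp.image (eval_continuous p).norm).bddAbove
    · intro hz p
      have h1 := hz p
      have h2 := (hcomp.image (eval_continuous p).norm).sSup_mem (hne.image _)
      obtain ⟨w, hw, hw2⟩ := h2
      simp only at hw2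
      exact ⟨w, hw, by rw [hw2]; exact h1⟩
  refine ⟨K, ⟨hK.trans cantorSetHomeomorphNatToBool.symm⟩, ?_, ?_⟩
  · rw [← hrat]; exact hint
  · rw [← hrat, ← hpoly]; exact heq

end Pool.Agent.R233.CH
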