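import Pool.Agent.R233.CH.PshMax

/-!
The zero set of an entire function is not confined to the fine gaps of the system.
-/

set_option autoImplicit false

open Set Filter Topology

namespace Pool.Agent.R233.CH

theorem Gap.lip {δ θ C : ℝ} {g : E → ℝ} (hg : Gap δ θ C g) (hδ : 0 ≤ δ) {p q : E} (hp : ‖p‖ ≤ 1)
    (hq : ‖q - p‖ ≤ 1) : |g q - g p| ≤ 7 * ‖q - p‖ := by
  obtain ⟨G, h1, h2, h3, -⟩ := hg.expand p hp
  have e1 := h1 (q - p)
  have e2 := h2 (q - p)
  have e3 := h3 (q - p)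
  rw [add_sub_cancel] at e2 e3
  have e4 := (abs_le.1 (Complex.abs_re_le_norm (G (q - p))))
  have e5 : ‖q - p‖ ^ 2 ≤ ‖q - p‖ := by
    have := norm_nonneg (q - p)
    nlinarith
  have e6 : 0 ≤ δ * ‖q - p‖ ^ 2 := by positivity
  rw [abs_le]
  constructor <;> linarith [e4.1, e4.2, norm_nonneg (q - p)]

variable {δ θ C e : ℝ} {g : ℕ → E → ℝ} {Φ : ℕ → E → ℝ} {ε A M R : ℕ → ℝ}

namespace Sys

theorem A1 (S : Sys δ θ C e g Φ ε A M R) (k : ℕ) : 8 ≤ A k := by
  have h1 := S.Alarge k
  have h2 := S.M1 k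
  have : 0 ≤ 576 * (M k + 2) * C ^ 2 := by positivity
  linarith

theorem eps0 (S : Sys δ θ C e g Φ ε A M R) (k : ℕ) : 0 < ε k := by
  rw [S.eps k]
  have := S.R0 k
  have := S.δ0
  positivity

theorem eps1 (S : Sys δ θ C e g Φ ε A M R) (k : ℕ) : 56 * ε k ≤ 1 := by
  have h1 := S.A1 k
  have h2 := S.eps0 k
  have h3 := S.Aeps k
  nlinarith

theorem R14 (S : Sys δ θ C e g Φ ε A M R) (k : ℕ) : 14 * R (k + 1) ≤ ε k := by
  have h1 := S.Rdec k
  have h2 := S.eps1 k
  have h3 := S.eps0 k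
  nlinarith

theorem deep (S : Sys δ θ C e g Φ ε A M R) {f : E → ℂ} (hf : Differentiable ℂ f) {k n : ℕ} {x : E}
    (hx : f x = 0) {r : ℝ} (hr : 2 * R (k + 1) ≤ r) (hball : ∀ y : E, ‖y - x‖ ≤ r → ‖y‖ ≤ 1)
    (hcov : ∀ y : E, ‖y - x‖ ≤ r → f y = 0 → ∃ j, k < j ∧ j < n ∧ |g j y| < ε j) : False := by
  have hr0 : 0 ≤ r := by linarith [S.R0 (k + 1)]
  have claim : ∀ d m : ℕ, m + d = n → k + 1 ≤ m → ∀ y : E, f y = 0 → ‖y - x‖ ≤ r - 2 * R m →
      ∃ j, k < j ∧ j < m ∧ |g j y| < ε j + 14 * R m := by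
    intro d
    induction d with
    | zero =>
      intro m hm _ y hy hyx
      obtain ⟨j, h1, h2, h3⟩ := hcov y (by linarith [S.R0 m]) hy
      exact ⟨j, h1, by omega, by linarith [S.R0 m]⟩
    | succ d ih =>
      intro m hm hkm y hy hyx
      by_contra hcon
      push Not at hcon
      have hRm := S.R0 m
      have hRm1 := S.R1 m
      have hRs := S.R0 (m + 1)
      have hRh := S.Rhalf m
      have hy1 : ‖y‖ ≤ 1 := hball y (by linarith)
      have hK : ∀ z : E, ‖z - y‖ ≤ R m → f z = 0 → |g m z| < 2 * ε m := by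
        intro z hz hfz
        have hzx : ‖z - x‖ ≤ r - 2 * R (m + 1) := by
          have : z - x = (z - y) + (y - x) := by abel
          rw [this]
          refine (norm_add_le _ _).trans ?_
          linarith
        obtain ⟨j, hj1, hj2, hj3⟩ := ih (m + 1) (by omega) (by omega) z hfz hzx
        rcases Nat.lt_succ_iff_lt_or_eq.1 hj2 with hj4 | hj4
        · exfalso
          have h1 := hcon j hj1 hj4
          have h2 := (S.gap j).lip S.δ0.le hy1 (hz.trans hRm1)
          have h3 := abs_sub_abs_le_abs_sub (g j y) (g j z)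
          rw [abs_sub_comm] at h3
          linarith
        · subst hj4
          linarith [S.R14 j]
      obtain ⟨G, -, hG2, -, -⟩ := (S.gap m).expand y hy1
      have hcomp : IsCompact {z : E | ‖z - y‖ ≤ R m ∧ f z = 0} := by
        have h1 : {z : E | ‖z - y‖ ≤ R m ∧ f z = 0} = Metric.closedBall y (R m) ∩ f ⁻¹' {0} := by
          ext z
          simp [Metric.mem_closedBall, dist_eq_norm]
        rw [h1]
        exact (isCompact_closedBall y (R m)).inter_right (isClosed_singleton.preimage hf.continuous)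
      have hyK : y ∈ {z : E | ‖z - y‖ ≤ R m ∧ f z = 0} := ⟨by simpa using hRm.le, hy⟩
      obtain ⟨b, hb, hb1, hb2⟩ := psh_max hf hcomp (fun z hz => hz.2) hyK G
        (half_pos S.δ0)
      have hbR : R m ≤ ‖b - y‖ := by
        by_contra hlt
        push Not at hlt
        obtain ⟨z, hz1, hz2, hz3⟩ := hb2 (R m - ‖b - y‖) (by linarith)
        refine hz3 ⟨?_, hz2⟩
        have : z - y = (z - b) + (b - y) := by abel
        rw [this]
        refine (norm_add_le _ _).trans ?_
        linarith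
      have h1 := hG2 (b - y)
      rw [add_sub_cancel] at h1
      have h2 := abs_lt.1 (hK b hb.1 hb.2)
      have h3 := abs_lt.1 (hK y hyK.1 hy)
      have h4 := S.eps m
      have h5 : R m ^ 2 ≤ ‖b - y‖ ^ 2 := by
        have := norm_nonneg (b - y)
        nlinarith
      have h6 : δ * R m ^ 2 ≤ δ * ‖b - y‖ ^ 2 := mul_le_mul_of_nonneg_left h5 S.δ0.le
      linarith [h2.1, h2.2, h3.1, h3.2]
  rcases Nat.lt_or_ge k n with hkn | hkn
  · obtain ⟨j, h1, h2, -⟩ := claim (n - (k + 1)) (k + 1) (by omega) le_rfl x hx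
      (by rw [sub_self, norm_zero]; linarith)
    omega
  · obtain ⟨j, h1, h2, -⟩ := hcov x (by rw [sub_self, norm_zero]; exact hr0) hx
    omega

end Sys

end Pool.Agent.R233.CH
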