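import Pool.Agent.R233.CH.Deep

/-!
The edge of a gap: the zero set does not leave the gap through the inner part.
-/

set_option autoImplicit false

open Set Filter Topology

namespace Pool.Agent.R233.CH

variable {δ θ C e : ℝ} {g : ℕ → E → ℝ} {Φ : ℕ → E → ℝ} {ε A M R : ℕ → ℝ}

namespace Sys

theorem phiMono (S : Sys δ θ C e g Φ ε A M R) {k n : ℕ} (h : k ≤ n) (x : E) : Φ k x ≤ Φ n x := by
  induction n, h using Nat.le_induction with
  | base => exact le_rfl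
  | succ n _ ih => exact ih.trans (S.mono n x)

theorem phiUp (S : Sys δ θ C e g Φ ε A M R) {k n : ℕ} (h : k ≤ n) (x : E) :
    Φ n x ≤ Φ k x + 20 * A k * ε k ^ 2 - 20 * A n * ε n ^ 2 := by
  induction n, h using Nat.le_induction with
  | base => linarith
  | succ n _ ih =>
    have h1 := S.up n x
    have h2 := S.Adec n
    have h3 := S.A1 n
    have h4 : 0 ≤ A n * ε n ^ 2 := by positivity
    linarith

theorem aeps_pos (S : Sys δ θ C e g Φ ε A M R) (k : ℕ) : 0 < A k * ε k ^ 2 := by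
  have h3 := S.A1 k
  have h4 := S.eps0 k
  positivity

theorem norm_le_one (S : Sys δ θ C e g Φ ε A M R) {k : ℕ} {x : E} (h : Φ k x ≤ 0) : ‖x‖ ≤ 1 := by
  have h1 := S.phiMono (Nat.zero_le k) x
  rw [S.base] at h1
  have h2 := norm_nonneg x
  nlinarith

theorem A3 (S : Sys δ θ C e g Φ ε A M R) (k : ℕ) : 3 + M k ≤ A k := by
  have h1 := S.Alarge k
  have h2 := S.M1 k
  have h3 := S.C1
  have h4 : 1 ≤ C ^ 2 := by nlinarith
  nlinarith

theorem e1 (S : Sys δ θ C e g Φ ε A M R) : e ≤ 1 / 2 := by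
  have h1 := S.eC
  have h2 := S.C1
  have h3 := S.e0
  nlinarith

theorem semi3 (S : Sys δ θ C e g Φ ε A M R) {L : E →L[ℂ] ℂ} {p : E} (hp : ‖p‖ ≤ 1)
    (hL : ∀ h, ‖L h - 2 * inner ℂ p h‖ ≤ e * ‖h‖) (h : E) : ‖L h‖ ≤ 3 * ‖h‖ := by
  have h1 := hL h
  have h2 : ‖(2 : ℂ) * inner ℂ p h‖ ≤ 2 * ‖h‖ := by
    rw [norm_mul, Complex.norm_ofNat]
    have h3 := norm_inner_le_norm (𝕜 := ℂ) p h
    have h4 := mul_le_mul_of_nonneg_right hp (norm_nonneg h)
    linarith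
  have h3 : L h = (L h - 2 * inner ℂ p h) + 2 * inner ℂ p h := by ring
  rw [h3]
  refine (norm_add_le _ _).trans ?_
  have h4 := mul_le_mul_of_nonneg_right S.e1 (norm_nonneg h)
  linarith [norm_nonneg h]

theorem edge (S : Sys δ θ C e g Φ ε A M R) {f : E → ℂ} (hf : Differentiable ℂ f) {k n : ℕ}
    (hkn : k < n) (IH : ∀ j, j < k → ∀ y : E, f y = 0 → Φ n y ≤ 0 → ε j ≤ |g j y|)
    (hX : ∀ y : E, f y = 0 → Φ n y ≤ 0 → ∃ j, j < n ∧ |g j y| < ε j) {x : E} (hx : f x = 0)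
    (hg : |g k x| = 7 / 2 * ε k)
    (hΨ : 9 * A k * ε k ^ 2 ≤ - Φ k x + A k / 2 * g k x ^ 2) : False := by
  have hε := S.eps0 k
  have hε1 := S.eps1 k
  have hA := S.A3 k
  have hM := S.M1 k
  have hAe := S.aeps_pos k
  have hsq : g k x ^ 2 = 49 / 4 * ε k ^ 2 := by
    rw [← sq_abs, hg]; ring
  rw [hsq] at hΨ
  have hΦ : Φ k x ≤ -(23 / 8) * (A k * ε k ^ 2) := by linarith
  have hx1 : ‖x‖ ≤ 1 := S.norm_le_one (k := k) (by linarith)
  have hr1 : ε k ^ 2 / 2 ≤ 1 := by nlinarith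
  have key : ∀ y : E, ‖y - x‖ ≤ ε k ^ 2 / 2 → 3 * ε k ≤ |g k y| ∧ Φ n y ≤ 0 := by
    intro y hy
    have h1 : 3 * ε k ≤ |g k y| := by
      have h2 := (S.gap k).lip S.δ0.le hx1 (hy.trans hr1)
      have h3 := abs_sub_abs_le_abs_sub (g k x) (g k y)
      rw [abs_sub_comm] at h3
      rw [hg] at h3
      nlinarith
    refine ⟨h1, ?_⟩
    obtain ⟨L, hL1, hL2⟩ := S.semi k x hx1
    have h4 := hL2 (y - x) (hy.trans hr1)
    rw [add_sub_cancel] at h4
    have h5 := (Complex.re_le_norm (L (y - x))).trans (S.semi3 hx1 hL1 (y - x))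
    have h6 : ‖y - x‖ ^ 2 ≤ ‖y - x‖ := by
      have := norm_nonneg (y - x)
      have := hy.trans hr1
      nlinarith
    have h7 : M k * ‖y - x‖ ^ 2 ≤ M k * ‖y - x‖ := mul_le_mul_of_nonneg_left h6 (by linarith)
    have h8 : (3 + M k) * ‖y - x‖ ≤ A k * (ε k ^ 2 / 2) :=
      mul_le_mul hA hy (norm_nonneg _) (by linarith)
    have h9 := S.far k y h1
    have h10 := S.phiUp (Nat.succ_le_of_lt hkn) y
    have h11 := S.Adec k
    have h12 := S.aeps_pos n
    simp only [Nat.succ_eq_add_one] at h10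
    nlinarith
  refine S.deep hf (k := k) (n := n) hx (r := ε k ^ 2 / 2) ?_ ?_ ?_
  · have := S.Rdec k
    nlinarith [S.R0 (k + 1)]
  · intro y hy
    exact S.norm_le_one (key y hy).2
  · intro y hy hfy
    obtain ⟨h1, h2⟩ := key y hy
    obtain ⟨j, hj1, hj2⟩ := hX y hfy h2
    refine ⟨j, ?_, hj1, hj2⟩
    rcases lt_trichotomy k j with h3 | h3 | h3
    · exact h3
    · subst h3
      linarith
    · have := IH j h3 y hfy h2
      linarith

end Sys

end Pool.Agent.R233.CH
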