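import Pool.Agent.R233.CH.Step

/-!
The exactness of the dented balls and the hitting theorem.
-/

set_option autoImplicit false

open Set Filter Topology

namespace Pool.Agent.R233.CH

variable {δ θ C e : ℝ} {g : ℕ → E → ℝ} {Φ : ℕ → E → ℝ} {ε A M R : ℕ → ℝ}

namespace Sys

theorem step (S : Sys δ θ C e g Φ ε A M R) {f : E → ℂ} (hf : Differentiable ℂ f) {k n : ℕ}
    (hkn : k < n) (IH : ∀ j, j < k → ∀ y : E, f y = 0 → Φ n y ≤ 0 → ε j ≤ |g j y|)
    (hX : ∀ y : E, f y = 0 → Φ n y ≤ 0 → ∃ j, j < n ∧ |g j y| < ε j) {q : E} (hq : f q = 0)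
    (hqΦ : Φ n q ≤ 0) (hqg : |g k q| < ε k) : False := by
  have hε := S.eps0 k
  have hε1 := S.eps1 k
  have hAe := S.aeps_pos k
  have hA8 := S.A1 k
  have hedge := fun {x : E} (hx : f x = 0) (h1 : |g k x| = 7 / 2 * ε k)
    (h2 : 9 * A k * ε k ^ 2 ≤ - Φ k x + A k / 2 * g k x ^ 2) =>
    S.edge hf hkn IH hX hx h1 h2
  have hcg := (S.gap k).cont
  have hcΦ := S.cont k
  have hcΨ : Continuous fun x : E => - Φ k x + A k / 2 * g k x ^ 2 := by fun_prop
  -- depth in the set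
  have hdepth : ∀ x : E, |g k x| ≤ 7 / 2 * ε k →
      9 * A k * ε k ^ 2 ≤ - Φ k x + A k / 2 * g k x ^ 2 → Φ k x ≤ 0 := by
    intro x h1 h2
    have h3 : g k x ^ 2 ≤ 49 / 4 * ε k ^ 2 := by
      rw [← sq_abs]
      have h4 := abs_nonneg (g k x)
      nlinarith
    have h5 : A k / 2 * g k x ^ 2 ≤ A k / 2 * (49 / 4 * ε k ^ 2) :=
      mul_le_mul_of_nonneg_left h3 (by linarith)
    nlinarith
  let K : Set E := {x : E | f x = 0 ∧ |g k x| ≤ 7 / 2 * ε k ∧
    9 * A k * ε k ^ 2 ≤ - Φ k x + A k / 2 * g k x ^ 2}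
  have hKclosed : IsClosed K := by
    have h1 : IsClosed {x : E | f x = 0} := isClosed_eq hf.continuous continuous_const
    have h2 : IsClosed {x : E | |g k x| ≤ 7 / 2 * ε k} := isClosed_le hcg.abs continuous_const
    have h3 : IsClosed {x : E | 9 * A k * ε k ^ 2 ≤ - Φ k x + A k / 2 * g k x ^ 2} :=
      isClosed_le continuous_const hcΨ
    exact h1.inter (h2.inter h3)
  have hKcomp : IsCompact K := by
    refine Metric.isCompact_of_isClosed_isBounded hKclosed ?_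
    refine (Metric.isBounded_closedBall (x := (0 : E)) (r := 1)).subset ?_
    intro x hx
    rw [mem_closedBall_zero_iff]
    exact S.norm_le_one (hdepth x hx.2.1 hx.2.2)
  have hqΨ : 10 * A k * ε k ^ 2 ≤ - Φ k q + A k / 2 * g k q ^ 2 := by
    have h1 := S.dip k q hqg.le
    have h2 := S.phiMono (Nat.succ_le_of_lt hkn) q
    simp only [Nat.succ_eq_add_one] at h2
    have h3 : 0 ≤ A k / 2 * g k q ^ 2 := by positivity
    linarith
  have hqK : q ∈ K := ⟨hq, by linarith, by nlinarith⟩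
  obtain ⟨p, hpK, hpmax⟩ := hKcomp.exists_isMaxOn ⟨q, hqK⟩ hcΨ.continuousOn
  have hpq := hpmax hqK
  simp only [Set.mem_ofPred_eq] at hpq
  have hpΨ : 9 * A k * ε k ^ 2 < - Φ k p + A k / 2 * g k p ^ 2 := by nlinarith
  have hp1 : ‖p‖ ≤ 1 := S.norm_le_one (hdepth p hpK.2.1 hpK.2.2)
  have hpg : |g k p| < 7 / 2 * ε k := lt_of_le_of_ne hpK.2.1 fun h => hedge hpK.1 h hpK.2.2
  have hnhds : ∀ z : E, |g k z| < 7 / 2 * ε k →
      9 * A k * ε k ^ 2 < - Φ k z + A k / 2 * g k z ^ 2 →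
      ∃ r : ℝ, 0 < r ∧ ∀ y : E, ‖y - z‖ < r → f y = 0 → y ∈ K := by
    intro z h1 h2
    have h3 : {x : E | |g k x| < 7 / 2 * ε k} ∈ 𝓝 z :=
      (isOpen_lt hcg.abs continuous_const).mem_nhds h1
    have h4 : {x : E | 9 * A k * ε k ^ 2 < - Φ k x + A k / 2 * g k x ^ 2} ∈ 𝓝 z :=
      (isOpen_lt continuous_const hcΨ).mem_nhds h2
    obtain ⟨r, hr, hr2⟩ := Metric.mem_nhds_iff.1 (inter_mem h3 h4)
    refine ⟨r, hr, fun y hy hfy => ?_⟩
    have h5 := hr2 (show y ∈ Metric.ball z r by rwa [Metric.mem_ball, dist_eq_norm])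
    exact ⟨hfy, le_of_lt h5.1, le_of_lt h5.2⟩
  -- the set is shallow
  obtain ⟨G, -, hG2, -, -⟩ := (S.gap k).expand p hp1
  obtain ⟨b, hbK, hb1, hb2⟩ := psh_max hf hKcomp (fun z hz => hz.1) hpK G (half_pos S.δ0)
  have hbΨ : - Φ k b + A k / 2 * g k b ^ 2 ≤ 9 * A k * ε k ^ 2 := by
    by_contra hcon
    push Not at hcon
    have hbg : |g k b| < 7 / 2 * ε k := lt_of_le_of_ne hbK.2.1 fun h => hedge hbK.1 h hbK.2.2
    obtain ⟨r, hr, hr2⟩ := hnhds b hbg hcon
    obtain ⟨z, hz1, hz2, hz3⟩ := hb2 r hr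
    exact hz3 (hr2 z hz1 hz2)
  have hbn : 1 - 20 * A 0 * ε 0 ^ 2 ≤ ‖b‖ ^ 2 := by
    have h1 := S.phiUp (Nat.zero_le k) b
    rw [S.base] at h1
    have h2 : 0 ≤ A k / 2 * g k b ^ 2 := by positivity
    linarith
  have hb1' : ‖b‖ ≤ 1 := S.norm_le_one (hdepth b hbK.2.1 hbK.2.2)
  have hR0 := S.R0 k
  have hRk : R k ≤ R 0 := by
    have : ∀ m, R m ≤ R 0 := by
      intro m
      induction m with
      | zero => exact le_rfl
      | succ m ih => linarith [S.Rhalf m, S.R0 (m + 1)]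
    exact this k
  have hdist : ‖b - p‖ ≤ 3 / 2 * R k := by
    have h1 := hG2 (b - p)
    rw [add_sub_cancel] at h1
    have h2 := abs_le.1 hbK.2.1
    have h3 := abs_lt.1 hpg
    have h4 := S.eps k
    have h5 : δ * ‖b - p‖ ^ 2 ≤ δ * (7 / 4 * R k ^ 2) := by
      nlinarith [h2.1, h2.2, h3.1, h3.2]
    have h6 : ‖b - p‖ ^ 2 ≤ 7 / 4 * R k ^ 2 := le_of_mul_le_mul_left h5 S.δ0
    have h7 : ‖b - p‖ ^ 2 ≤ (3 / 2 * R k) ^ 2 := by nlinarith
    exact le_of_sq_le_sq h7 (by linarith)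
  have hsh : 1 - θ ≤ ‖p‖ ^ 2 := by
    have h1 : ‖b‖ ≤ ‖p‖ + ‖b - p‖ := by
      have : b = p + (b - p) := by abel
      calc ‖b‖ = ‖p + (b - p)‖ := by rw [← this]
        _ ≤ _ := norm_add_le _ _
    have h2 := S.shallow
    have h3 : ‖b‖ ^ 2 - ‖p‖ ^ 2 ≤ 2 * ‖b - p‖ := by
      have h4 := norm_nonneg b
      have h5 := norm_nonneg p
      have h6 := norm_nonneg (b - p)
      nlinarith
    linarith
  have hgθ : |g k p| ≤ θ := by
    have h1 := S.eps k
    have h2 := S.shallow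
    have h3 : 0 ≤ 20 * A 0 * ε 0 ^ 2 := by
      have := S.aeps_pos 0
      nlinarith
    have h4 : δ * R k ^ 2 ≤ R k := by
      have h5 := S.R1 k
      have h6 : R k ^ 2 ≤ R k := by nlinarith
      have h7 : δ * R k ^ 2 ≤ 1 * R k ^ 2 := mul_le_mul_of_nonneg_right S.δ1 (sq_nonneg _)
      linarith
    linarith
  obtain ⟨r, hr, hr2⟩ := hnhds p hpg hpΨ
  refine S.nomax hf hpK.1 hp1 hsh hpg.le hgθ hr ?_
  intro y hy hfy
  exact hpmax (hr2 y hy hfy)

theorem exact (S : Sys δ θ C e g Φ ε A M R) {f : E → ℂ} (hf : Differentiable ℂ f) (n : ℕ)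
    (hX : ∀ y : E, Φ n y ≤ 0 → (∀ j, j < n → ε j ≤ |g j y|) → f y ≠ 0) :
    ∀ y : E, Φ n y ≤ 0 → f y ≠ 0 := by
  have hX' : ∀ y : E, f y = 0 → Φ n y ≤ 0 → ∃ j, j < n ∧ |g j y| < ε j := by
    intro y hfy hΦ
    by_contra hcon
    push Not at hcon
    exact hX y hΦ hcon hfy
  have hall : ∀ k, k < n → ∀ y : E, f y = 0 → Φ n y ≤ 0 → ε k ≤ |g k y| := by
    intro k
    induction k using Nat.strong_induction_on with
    | _ k ih =>
      intro hk y hfy hΦ
      by_contra hcon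
      push Not at hcon
      exact S.step hf hk (fun j hj => ih j hj (hj.trans hk)) hX' hfy hΦ hcon
  intro y hΦ hfy
  obtain ⟨j, hj, hj2⟩ := hX' y hfy hΦ
  have := hall j hj y hfy hΦ
  linarith

end Sys

/-- the hitting theorem -/
theorem hitting (h1 : ExistsGaps) (h2 : ExistsSys) : Hitting := by
  obtain ⟨δ, θ, C, hδ0, hδ1, hθ0, hθ1, hC, g, hg, hsep⟩ := h1
  obtain ⟨e, Φ, ε, A, M, R, S⟩ := h2 δ θ C g hδ0 hδ1 hθ0 hθ1 hC hg
  let Xn : ℕ → Set E := fun n => {x : E | Φ n x ≤ 0 ∧ ∀ j, j < n → ε j ≤ |g j x|}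
  let Yn : ℕ → Set E := fun n => {x : E | Φ n x ≤ 0}
  have hYclosed : ∀ n, IsClosed (Yn n) := fun n => isClosed_le (S.cont n) continuous_const
  have hXclosed : ∀ n, IsClosed (Xn n) := by
    intro n
    refine (hYclosed n).inter ?_
    have : {x : E | ∀ j, j < n → ε j ≤ |g j x|} = ⋂ j, ⋂ _ : j < n, {x : E | ε j ≤ |g j x|} := by
      ext x
      simp
    change IsClosed {x : E | ∀ j, j < n → ε j ≤ |g j x|}
    rw [this]
    exact isClosed_iInter fun j => isClosed_iInter fun _ =>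
      isClosed_le continuous_const ((S.gap j).cont.abs)
  have hYcomp : ∀ n, IsCompact (Yn n) := by
    intro n
    refine Metric.isCompact_of_isClosed_isBounded (hYclosed n) ?_
    refine (Metric.isBounded_closedBall (x := (0 : E)) (r := 1)).subset ?_
    intro x hx
    rw [mem_closedBall_zero_iff]
    exact S.norm_le_one hx
  have hXcomp : ∀ n, IsCompact (Xn n) := fun n =>
    (hYcomp n).of_isClosed_subset (hXclosed n) fun x hx => hx.1
  have hXYn : ∀ n, Xn n ⊆ Yn n := fun n x hx => hx.1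
  have hXanti : Antitone Xn := by
    intro m n hmn x hx
    exact ⟨(S.phiMono hmn x).trans hx.1, fun j hj => hx.2 j (hj.trans_le hmn)⟩
  refine ⟨⋂ n, Xn n, ⋂ n, Yn n, g, ?_, ?_, ?_, ?_, ?_, ?_, ?_, ?_, ?_⟩
  · exact (hXcomp 0).of_isClosed_subset (isClosed_iInter hXclosed) (iInter_subset _ 0)
  · exact (hYcomp 0).of_isClosed_subset (isClosed_iInter hYclosed) (iInter_subset _ 0)
  · exact iInter_mono hXYn
  · intro x hx
    exact mem_iInter.2 fun n => S.half n x hx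
  · intro x hx s hs0 hs1
    exact mem_iInter.2 fun n => S.star n x s hs0 hs1 (mem_iInter.1 hx n)
  · exact fun k => (S.gap k).cont
  · intro k x hx h0
    have h3 := (mem_iInter.1 hx (k + 1)).2 k (Nat.lt_succ_self k)
    rw [h0, abs_zero] at h3
    linarith [S.eps0 k]
  · intro x hx y hy hxy
    exact hsep x y (S.norm_le_one (mem_iInter.1 hx 0).1) (S.norm_le_one (mem_iInter.1 hy 0).1) hxy
  · intro f hf hfX x hx hfx
    have hVclosed : IsClosed {y : E | f y = 0} := isClosed_eq hf.continuous continuous_const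
    by_cases hall : ∀ n, (Xn n ∩ {y : E | f y = 0}).Nonempty
    · obtain ⟨z, hz⟩ := IsCompact.nonempty_iInter_of_sequence_nonempty_isCompact_isClosed
        (fun n => Xn n ∩ {y : E | f y = 0})
        (fun n => inter_subset_inter_left _ (hXanti (Nat.le_succ n))) hall
        ((hXcomp 0).inter_right hVclosed) (fun n => (hXclosed n).inter hVclosed)
      have hz' := mem_iInter.1 hz
      exact hfX z (mem_iInter.2 fun n => (hz' n).1) (hz' 0).2
    · push Not at hall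
      obtain ⟨n, hn⟩ := hall
      refine S.exact hf n ?_ x (mem_iInter.1 hx n) hfx
      intro y hy1 hy2 hfy
      have : y ∈ Xn n ∩ {y : E | f y = 0} := ⟨⟨hy1, hy2⟩, hfy⟩
      rw [hn] at this
      exact this

end Pool.Agent.R233.CH
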