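import Pool.Agent.R233.CH.Defs

/-!
A separating sequence of gap functions in the ball of `ℂ²`.
-/

set_option autoImplicit false

open Set Filter Topology ComplexConjugate

namespace Pool.Agent.R233.CH

namespace Gaps

/-- the gap function -/
noncomputable def gf (u : E) (τ : ℂ) (x : E) : ℝ :=
  ‖inner ℂ u x - τ‖ ^ 2 + 1 / 10 ^ 4 * (‖x‖ ^ 2 - 1) - 1 / 10 ^ 4

lemma inner_eq (u x : E) : inner ℂ u x = conj (u 0) * x 0 + conj (u 1) * x 1 := by
  rw [PiLp.inner_apply, Fin.sum_univ_two]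
  simp only [RCLike.inner_apply]
  ring

lemma norm_sq_eq (x : E) : ‖x‖ ^ 2 = ‖x 0‖ ^ 2 + ‖x 1‖ ^ 2 := by
  rw [EuclideanSpace.norm_sq_eq, Fin.sum_univ_two]

lemma norm_le_sum (x : E) : ‖x‖ ≤ ‖x 0‖ + ‖x 1‖ := by
  have h := norm_sq_eq x
  have h0 := norm_nonneg (x 0)
  have h1 := norm_nonneg (x 1)
  nlinarith [norm_nonneg x]

lemma coord_le (x : E) (i : Fin 2) : ‖x i‖ ≤ ‖x‖ := by
  have h := norm_sq_eq x
  have h0 := norm_nonneg (x 0)
  have h1 := norm_nonneg (x 1)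
  have h2 := norm_nonneg x
  fin_cases i
  · simp only [Fin.zero_eta]
    nlinarith
  · simp only [Fin.mk_one]
    nlinarith

lemma lagrange (u p : E) :
    ‖u 0 * p 1 - u 1 * p 0‖ ^ 2 + ‖inner ℂ u p‖ ^ 2 = ‖u‖ ^ 2 * ‖p‖ ^ 2 := by
  rw [inner_eq, norm_sq_eq u, norm_sq_eq p]
  simp only [← Complex.normSq_eq_norm_sq]
  simp only [Complex.normSq_apply, Complex.sub_re, Complex.sub_im, Complex.mul_re, Complex.mul_im,
    Complex.add_re, Complex.add_im, Complex.conj_re, Complex.conj_im]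
  ring

lemma sq_add (z w : ℂ) : ‖z + w‖ ^ 2 = ‖z‖ ^ 2 + 2 * (conj z * w).re + ‖w‖ ^ 2 := by
  simp only [← Complex.normSq_eq_norm_sq, Complex.normSq_apply, Complex.add_re, Complex.add_im,
    Complex.mul_re, Complex.conj_re, Complex.conj_im]
  ring

lemma sq_add' (p h : E) : ‖p + h‖ ^ 2 = ‖p‖ ^ 2 + 2 * (inner ℂ p h).re + ‖h‖ ^ 2 := by
  have := @norm_add_sq ℂ E _ _ _ p h
  simpa using this

lemma gf_cont (u : E) (τ : ℂ) : Continuous (gf u τ) := by
  unfold gf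
  fun_prop

lemma gap (u : E) (τ : ℂ) (hu : ‖u‖ = 1) (hτ : ‖τ‖ ≤ 97 / 100) :
    Gap (1 / 10 ^ 4) (1 / 10 ^ 5) 3000 (gf u τ) where
  cont := gf_cont u τ
  expand := by
    intro p hp
    obtain ⟨z, hz⟩ : ∃ z : ℂ, z = inner ℂ u p - τ := ⟨_, rfl⟩
    have hup : ‖inner ℂ u p‖ ≤ 1 := by
      have := norm_inner_le_norm (𝕜 := ℂ) u p
      rw [hu, one_mul] at this
      linarith
    have hzn : ‖z‖ ≤ 197 / 100 := by
      rw [hz]
      refine (norm_sub_le _ _).trans ?_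
      linarith
    have huh : ∀ h : E, ‖inner ℂ u h‖ ≤ ‖h‖ := by
      intro h
      have := norm_inner_le_norm (𝕜 := ℂ) u h
      rwa [hu, one_mul] at this
    have hph : ∀ h : E, ‖inner ℂ p h‖ ≤ ‖h‖ := by
      intro h
      have := norm_inner_le_norm (𝕜 := ℂ) p h
      refine this.trans ?_
      exact mul_le_of_le_one_left (norm_nonneg _) hp
    set G : E →L[ℂ] ℂ := (2 * conj z) • innerSL ℂ u + (2 * ((1 / 10 ^ 4 : ℝ) : ℂ)) • innerSL ℂ p
      with hG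
    have hGa : ∀ h, G h = 2 * conj z * inner ℂ u h + 2 * ((1 / 10 ^ 4 : ℝ) : ℂ) * inner ℂ p h := by
      intro h
      rw [hG]
      simp [innerSL_apply_apply]
    have hexp : ∀ h, gf u τ (p + h) = gf u τ p + (G h).re + ‖inner ℂ u h‖ ^ 2 +
        1 / 10 ^ 4 * ‖h‖ ^ 2 := by
      intro h
      unfold gf
      rw [hGa, inner_add_right, sq_add', show inner ℂ u p + inner ℂ u h - τ = z + inner ℂ u h by
        rw [hz]; ring, sq_add z, ← hz]
      have e1 : (2 * conj z * inner ℂ u h + 2 * ((1 / 10 ^ 4 : ℝ) : ℂ) * inner ℂ p h).re =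
          2 * (conj z * inner ℂ u h).re + 2 * (1 / 10 ^ 4) * (inner ℂ p h).re := by
        rw [Complex.add_re]
        congr 1
        · rw [mul_assoc, show (2 : ℂ) = ((2 : ℝ) : ℂ) by norm_num, Complex.re_ofReal_mul]
        · rw [show (2 : ℂ) * ((1 / 10 ^ 4 : ℝ) : ℂ) = ((2 * (1 / 10 ^ 4) : ℝ) : ℂ) by push_cast; ring,
            Complex.re_ofReal_mul]
      rw [e1]
      ring
    refine ⟨G, ?_, ?_, ?_, ?_⟩
    · intro h
      rw [hGa]
      refine (norm_add_le _ _).trans ?_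
      rw [norm_mul, norm_mul, norm_mul, norm_mul, Complex.norm_conj, Complex.norm_real]
      have h1 := huh h
      have h2 := hph h
      have h3 := norm_nonneg h
      have e2 : ‖(2 : ℂ)‖ = 2 := by simp
      have e3 : ‖(1 / 10 ^ 4 : ℝ)‖ = 1 / 10 ^ 4 := by
        rw [Real.norm_of_nonneg (by norm_num)]
      rw [e2, e3]
      calc 2 * ‖z‖ * ‖inner ℂ u h‖ + 2 * (1 / 10 ^ 4) * ‖inner ℂ p h‖ ≤
          2 * (197 / 100) * ‖h‖ + 2 * (1 / 10 ^ 4) * ‖h‖ := by gcongr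
        _ ≤ 5 * ‖h‖ := by nlinarith
    · intro h
      rw [hexp]
      nlinarith [sq_nonneg ‖inner ℂ u h‖]
    · intro h
      rw [hexp]
      have h1 : ‖inner ℂ u h‖ ^ 2 ≤ ‖h‖ ^ 2 := by
        have := huh h
        gcongr
      nlinarith [sq_nonneg ‖h‖]
    · intro hp1 hgp h
      have hg : gf u τ p = ‖z‖ ^ 2 + 1 / 10 ^ 4 * (‖p‖ ^ 2 - 1) - 1 / 10 ^ 4 := by
        unfold gf; rw [← hz]
      rw [hg, abs_le] at hgp
      have hp2 : ‖p‖ ^ 2 ≤ 1 := by nlinarith [norm_nonneg p]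
      have hz1 : 1 / 200 ≤ ‖z‖ := by
        by_contra hc
        push Not at hc
        nlinarith [norm_nonneg z, hgp.1]
      have hz2 : ‖z‖ ≤ 11 / 1000 := by
        by_contra hc
        push Not at hc
        nlinarith [norm_nonneg z, hgp.2]
      have hup2 : ‖inner ℂ u p‖ ≤ 981 / 1000 := by
        have h1 : inner ℂ u p = z + τ := by rw [hz]; ring
        rw [h1]
        refine (norm_add_le _ _).trans ?_
        linarith
      obtain ⟨D, hD⟩ : ∃ D : ℂ, D = u 0 * p 1 - u 1 * p 0 := ⟨_, rfl⟩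
      have hlag := lagrange u p
      rw [← hD, hu] at hlag
      have hDn : 1 / 10 ≤ ‖D‖ := by
        by_contra hc
        push Not at hc
        have h3 : ‖inner ℂ u p‖ ^ 2 ≤ (981 / 1000) ^ 2 := by gcongr
        nlinarith [norm_nonneg D]
      have hL : ‖(2 : ℂ) * inner ℂ p h‖ = 2 * ‖inner ℂ p h‖ := by
        rw [norm_mul]; simp
      -- the component along `u`
      have h4 : ‖inner ℂ u h‖ ≤ 100 * (‖(2 : ℂ) * inner ℂ p h‖ + ‖G h‖) := by
        have h5 : 2 * conj z * inner ℂ u h = G h - ((1 / 10 ^ 4 : ℝ) : ℂ) * (2 * inner ℂ p h) := by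
          rw [hGa]; ring
        have h6 : 2 * ‖z‖ * ‖inner ℂ u h‖ ≤ ‖G h‖ + 1 / 10 ^ 4 * ‖(2 : ℂ) * inner ℂ p h‖ := by
          have h7 := norm_sub_le (G h) (((1 / 10 ^ 4 : ℝ) : ℂ) * (2 * inner ℂ p h))
          rw [← h5, norm_mul, norm_mul, Complex.norm_conj, norm_mul (((1 / 10 ^ 4 : ℝ) : ℂ)),
            Complex.norm_real, Real.norm_of_nonneg (by norm_num)] at h7
          simpa using h7
        have h8 := norm_nonneg (inner ℂ u h)
        have h9 := norm_nonneg ((2 : ℂ) * inner ℂ p h)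
        nlinarith
      have hu0 := coord_le u 0
      have hu1 := coord_le u 1
      have hp0 := coord_le p 0
      have hp1' := coord_le p 1
      rw [hu] at hu0 hu1
      have c0 : conj D * h 0 = conj (p 1) * inner ℂ u h - conj (u 1) * inner ℂ p h := by
        rw [hD, inner_eq, inner_eq]
        simp only [map_sub, map_mul]
        ring
      have c1 : conj D * h 1 = conj (u 0) * inner ℂ p h - conj (p 0) * inner ℂ u h := by
        rw [hD, inner_eq, inner_eq]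
        simp only [map_sub, map_mul]
        ring
      have n0 : ‖D‖ * ‖h 0‖ ≤ ‖inner ℂ u h‖ + ‖inner ℂ p h‖ := by
        have h5 := norm_sub_le (conj (p 1) * inner ℂ u h) (conj (u 1) * inner ℂ p h)
        rw [← c0, norm_mul, norm_mul, norm_mul, Complex.norm_conj, Complex.norm_conj,
          Complex.norm_conj] at h5
        refine h5.trans ?_
        have e1 : ‖p 1‖ * ‖inner ℂ u h‖ ≤ 1 * ‖inner ℂ u h‖ := by
          gcongr; linarith
        have e2 : ‖u 1‖ * ‖inner ℂ p h‖ ≤ 1 * ‖inner ℂ p h‖ := by gcongr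
        linarith
      have n1 : ‖D‖ * ‖h 1‖ ≤ ‖inner ℂ u h‖ + ‖inner ℂ p h‖ := by
        have h5 := norm_sub_le (conj (u 0) * inner ℂ p h) (conj (p 0) * inner ℂ u h)
        rw [← c1, norm_mul, norm_mul, norm_mul, Complex.norm_conj, Complex.norm_conj,
          Complex.norm_conj] at h5
        refine h5.trans ?_
        have e1 : ‖p 0‖ * ‖inner ℂ u h‖ ≤ 1 * ‖inner ℂ u h‖ := by
          gcongr; linarith
        have e2 : ‖u 0‖ * ‖inner ℂ p h‖ ≤ 1 * ‖inner ℂ p h‖ := by gcongr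
        linarith
      have h5 := norm_le_sum h
      have m0 : 1 / 10 * ‖h 0‖ ≤ ‖D‖ * ‖h 0‖ := by gcongr
      have m1 : 1 / 10 * ‖h 1‖ ≤ ‖D‖ * ‖h 1‖ := by gcongr
      have h6 := norm_nonneg (G h)
      have h7 := norm_nonneg ((2 : ℂ) * inner ℂ p h)
      have h8 : ‖inner ℂ p h‖ = ‖(2 : ℂ) * inner ℂ p h‖ / 2 := by rw [hL]; ring
      linarith

/-- the four directions -/
noncomputable def U (i : Fin 4) : E :=
  ![!₂[(1 : ℂ), 0], !₂[0, 1], !₂[3 / 5, 4 / 5], !₂[4 / 5, -3 / 5]] i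

lemma U_norm (i : Fin 4) : ‖U i‖ = 1 := by
  have h : ‖U i‖ ^ 2 = 1 := by
    rw [norm_sq_eq]
    fin_cases i <;> simp [U] <;> norm_num
  have h2 := norm_nonneg (U i)
  nlinarith

lemma U_inner (i : Fin 4) (x : E) : inner ℂ (U i) x =
    ![x 0, x 1, 3 / 5 * x 0 + 4 / 5 * x 1, 4 / 5 * x 0 - 3 / 5 * x 1] i := by
  rw [inner_eq]
  fin_cases i
  · simp [U]
  · simp [U]
  · simp [U, Complex.conj_ofNat]
  · simp [U, Complex.conj_ofNat]
    ring

lemma both {i j : Fin 4} (hij : i ≠ j) (w : E) :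
    1 / 5 * ‖w‖ ^ 2 ≤ ‖inner ℂ (U i) w‖ ^ 2 + ‖inner ℂ (U j) w‖ ^ 2 ∧
    ‖inner ℂ (U i) w‖ ^ 2 + ‖inner ℂ (U j) w‖ ^ 2 ≤ 9 / 5 * ‖w‖ ^ 2 := by
  have key : ∀ a c b d : ℂ, ∀ α β γ δ : ℝ, a = (α : ℂ) * w 0 + (β : ℂ) * w 1 →
      c = (γ : ℂ) * w 0 + (δ : ℂ) * w 1 → ‖a‖ ^ 2 + ‖c‖ ^ 2 =
      (α * (w 0).re + β * (w 1).re) ^ 2 + (α * (w 0).im + β * (w 1).im) ^ 2 +
      ((γ * (w 0).re + δ * (w 1).re) ^ 2 + (γ * (w 0).im + δ * (w 1).im) ^ 2) := by
    intro a c _ _ α β γ δ ha hc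
    rw [ha, hc]
    simp only [← Complex.normSq_eq_norm_sq, Complex.normSq_apply, Complex.add_re, Complex.add_im,
      Complex.mul_re, Complex.mul_im, Complex.ofReal_re, Complex.ofReal_im]
    ring
  have hw : ‖w‖ ^ 2 = (w 0).re ^ 2 + (w 0).im ^ 2 + ((w 1).re ^ 2 + (w 1).im ^ 2) := by
    rw [norm_sq_eq]
    simp only [← Complex.normSq_eq_norm_sq, Complex.normSq_apply]
    ring
  have hU : ∀ i : Fin 4, ∃ α β : ℝ, inner ℂ (U i) w = (α : ℂ) * w 0 + (β : ℂ) * w 1 ∧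
      ((i = 0 ∧ α = 1 ∧ β = 0) ∨ (i = 1 ∧ α = 0 ∧ β = 1) ∨ (i = 2 ∧ α = 3 / 5 ∧ β = 4 / 5) ∨
        (i = 3 ∧ α = 4 / 5 ∧ β = -3 / 5)) := by
    intro i
    rw [U_inner]
    fin_cases i
    · exact ⟨1, 0, by simp, by simp⟩
    · exact ⟨0, 1, by simp, by simp⟩
    · exact ⟨3 / 5, 4 / 5, by simp, by simp⟩
    · refine ⟨4 / 5, -3 / 5, ?_, by simp⟩
      simp
      ring
  obtain ⟨α, β, h1, h2⟩ := hU i
  obtain ⟨γ, δ, h3, h4⟩ := hU j
  rw [key _ _ 0 0 α β γ δ h1 h3, hw]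
  generalize (w 0).re = a at *
  generalize (w 1).re = c at *
  generalize (w 0).im = b at *
  generalize (w 1).im = d at *
  have n1 := sq_nonneg (a + 3 * c)
  have n2 := sq_nonneg (a - 2 * c)
  have n3 := sq_nonneg (3 * a - c)
  have n4 := sq_nonneg (2 * a + c)
  have n5 := sq_nonneg a
  have n6 := sq_nonneg c
  have m1 := sq_nonneg (b + 3 * d)
  have m2 := sq_nonneg (b - 2 * d)
  have m3 := sq_nonneg (3 * b - d)
  have m4 := sq_nonneg (2 * b + d)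
  have m5 := sq_nonneg b
  have m6 := sq_nonneg d
  rcases h2 with ⟨h2, rfl, rfl⟩ | ⟨h2, rfl, rfl⟩ | ⟨h2, rfl, rfl⟩ | ⟨h2, rfl, rfl⟩ <;>
  rcases h4 with ⟨h4, rfl, rfl⟩ | ⟨h4, rfl, rfl⟩ | ⟨h4, rfl, rfl⟩ | ⟨h4, rfl, rfl⟩ <;>
  first
  | exact absurd (h2.trans h4.symm) hij
  | constructor <;> nlinarith

/-- choice of a good direction -/
lemma choice {x y : E} (hx : ‖x‖ ≤ 1) (hy : ‖y‖ ≤ 1) (hxy : x ≠ y) :
    ∃ i : Fin 4, ‖inner ℂ (U i) x‖ ≤ 19 / 20 ∧ ‖inner ℂ (U i) y‖ ≤ 19 / 20 ∧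
      inner ℂ (U i) x ≠ inner ℂ (U i) y := by
  classical
  by_contra hcon
  push Not at hcon
  set k : Fin 4 → Fin 3 := fun i => if 19 / 20 < ‖inner ℂ (U i) x‖ then 0 else
    if 19 / 20 < ‖inner ℂ (U i) y‖ then 1 else 2 with hk
  obtain ⟨i, j, hij, hkk⟩ := Fintype.exists_ne_map_eq_of_card_lt k (by simp)
  have big : ∀ x : E, ‖x‖ ≤ 1 → 19 / 20 < ‖inner ℂ (U i) x‖ → 19 / 20 < ‖inner ℂ (U j) x‖ →
      False := by
    intro x hx h1 h2
    have h3 := (both hij x).2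
    have h4 := norm_nonneg x
    nlinarith
  simp only [hk] at hkk
  by_cases h1 : 19 / 20 < ‖inner ℂ (U i) x‖
  · rw [if_pos h1] at hkk
    by_cases h2 : 19 / 20 < ‖inner ℂ (U j) x‖
    · exact big x hx h1 h2
    · rw [if_neg h2] at hkk
      split_ifs at hkk <;> simp at hkk
  · rw [if_neg h1] at hkk
    by_cases h2 : 19 / 20 < ‖inner ℂ (U j) x‖
    · rw [if_pos h2] at hkk
      split_ifs at hkk <;> simp at hkk
    · rw [if_neg h2] at hkk
      by_cases h3 : 19 / 20 < ‖inner ℂ (U i) y‖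
      · rw [if_pos h3] at hkk
        by_cases h4 : 19 / 20 < ‖inner ℂ (U j) y‖
        · exact big y hy h3 h4
        · rw [if_neg h4] at hkk
          simp at hkk
      · rw [if_neg h3] at hkk
        by_cases h4 : 19 / 20 < ‖inner ℂ (U j) y‖
        · rw [if_pos h4] at hkk
          simp at hkk
        · have e1 := hcon i (not_lt.mp h1) (not_lt.mp h3)
          have e2 := hcon j (not_lt.mp h2) (not_lt.mp h4)
          have h5 := (both hij (x - y)).1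
          rw [inner_sub_right, inner_sub_right, e1, e2, sub_self, sub_self, norm_zero] at h5
          have h6 : 0 < ‖x - y‖ := norm_pos_iff.mpr (sub_ne_zero.mpr hxy)
          nlinarith

/-- the parameters -/
noncomputable def ta (n : ℕ) : ℂ :=
  open Classical in
  if ‖TopologicalSpace.denseSeq ℂ n‖ ≤ 97 / 100 then TopologicalSpace.denseSeq ℂ n else 0

lemma ta_le (n : ℕ) : ‖ta n‖ ≤ 97 / 100 := by
  unfold ta
  split_ifs with h
  · exact h
  · rw [norm_zero]; norm_num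

lemma sep {u x y : E} (hy : ‖y‖ ≤ 1) (hxy : ‖x‖ ≤ ‖y‖)
    (ha : ‖inner ℂ u x‖ ≤ 19 / 20) (hne : inner ℂ u x ≠ inner ℂ u y) :
    ∃ n, gf u (ta n) x < 0 ∧ 0 < gf u (ta n) y := by
  obtain ⟨a, had⟩ : ∃ a : ℂ, a = inner ℂ u x := ⟨_, rfl⟩
  obtain ⟨b, hbd⟩ : ∃ b : ℂ, b = inner ℂ u y := ⟨_, rfl⟩
  rw [← had, ← hbd] at hne
  rw [← had] at ha
  set r := ‖b - a‖ with hr
  have hr0 : 0 < r := norm_pos_iff.mpr (sub_ne_zero.mpr (Ne.symm hne))
  set Aq := 1 / 10 ^ 4 * (1 - ‖x‖ ^ 2) with hA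
  set Bq := 1 / 10 ^ 4 * (1 - ‖y‖ ^ 2) with hB
  have hx0 := norm_nonneg x
  have hBA : Bq ≤ Aq := by rw [hA, hB]; nlinarith
  have hB0 : 0 ≤ Bq := by rw [hB]; nlinarith
  have hA1 : Aq ≤ 1 / 10 ^ 4 := by rw [hA]; nlinarith
  set s0 := Real.sqrt (1 / 10 ^ 4 + Aq) with hs0
  have hs0sq : s0 ^ 2 = 1 / 10 ^ 4 + Aq := Real.sq_sqrt (by linarith)
  have hs0pos : 0 < s0 := Real.sqrt_pos.mpr (by linarith)
  have hs0le : s0 ≤ 15 / 1000 := by
    by_contra hc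
    push Not at hc
    nlinarith
  set s := max 0 (s0 - r / 2) with hs
  have hs1 : 0 ≤ s := le_max_left _ _
  have hs2 : s < s0 := max_lt hs0pos (by linarith)
  have hs3 : s0 < s + r := by
    have : s0 - r / 2 ≤ s := le_max_right _ _
    linarith
  -- the open set
  set O : Set ℂ := {τ | ‖a - τ‖ ^ 2 < 1 / 10 ^ 4 + Aq ∧ 1 / 10 ^ 4 + Bq < ‖b - τ‖ ^ 2 ∧
    ‖τ‖ < 97 / 100} with hO
  have hOo : IsOpen O := by
    have o1 : IsOpen {τ : ℂ | ‖a - τ‖ ^ 2 < 1 / 10 ^ 4 + Aq} :=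
      isOpen_lt (by fun_prop) continuous_const
    have o2 : IsOpen {τ : ℂ | 1 / 10 ^ 4 + Bq < ‖b - τ‖ ^ 2} :=
      isOpen_lt continuous_const (by fun_prop)
    have o3 : IsOpen {τ : ℂ | ‖τ‖ < 97 / 100} := isOpen_lt (by fun_prop) continuous_const
    exact o1.inter (o2.inter o3)
  have hOne : O.Nonempty := by
    refine ⟨a - ((s / r : ℝ) : ℂ) * (b - a), ?_, ?_, ?_⟩
    · have e1 : ‖a - (a - ((s / r : ℝ) : ℂ) * (b - a))‖ = s := by
        rw [sub_sub_cancel, norm_mul, Complex.norm_real, Real.norm_of_nonneg (by positivity), ← hr]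
        field_simp
      rw [e1, ← hs0sq]
      gcongr
    · have e1 : ‖b - (a - ((s / r : ℝ) : ℂ) * (b - a))‖ = s + r := by
        have : b - (a - ((s / r : ℝ) : ℂ) * (b - a)) = ((1 + s / r : ℝ) : ℂ) * (b - a) := by
          push_cast; ring
        rw [this, norm_mul, Complex.norm_real, Real.norm_of_nonneg (by positivity), ← hr]
        field_simp
        ring
      rw [e1]
      nlinarith
    · have e1 : ‖((s / r : ℝ) : ℂ) * (b - a)‖ = s := by
        rw [norm_mul, Complex.norm_real, Real.norm_of_nonneg (by positivity), ← hr]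
        field_simp
      refine (norm_sub_le _ _).trans_lt ?_
      rw [e1]
      linarith
  obtain ⟨n, hn⟩ := (TopologicalSpace.denseRange_denseSeq ℂ).exists_mem_open hOo hOne
  refine ⟨n, ?_⟩
  have hta : ta n = TopologicalSpace.denseSeq ℂ n := by
    unfold ta; rw [if_pos hn.2.2.le]
  obtain ⟨h1, h2, -⟩ := hn
  unfold gf
  rw [hta, ← had, ← hbd]
  constructor
  · rw [hA] at h1
    linarith
  · rw [hB] at h2
    linarith

end Gaps

open Gaps in
theorem existsGaps : Pool.Agent.R233.CH.ExistsGaps := by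
  refine ⟨1 / 10 ^ 4, 1 / 10 ^ 5, 3000, by norm_num, by norm_num, by norm_num, by norm_num,
    by norm_num, fun k => gf (U (Fin.ofNat 4 (Nat.unpair k).1)) (ta (Nat.unpair k).2),
    fun k => gap _ _ (U_norm _) (ta_le _), ?_⟩
  intro x y hx hy hxy
  obtain ⟨i, h1, h2, h3⟩ := choice hx hy hxy
  have hi : ∀ n, Fin.ofNat 4 (Nat.unpair (Nat.pair (i : ℕ) n)).1 = i := by
    intro n
    rw [Nat.unpair_pair]
    exact Fin.ext (Nat.mod_eq_of_lt i.2)
  rcases le_total ‖x‖ ‖y‖ with h | h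
  · obtain ⟨n, hn⟩ := sep hy h h1 h3
    refine ⟨Nat.pair (i : ℕ) n, Or.inl ?_⟩
    simp only
    rw [hi n, Nat.unpair_pair]
    exact hn
  · obtain ⟨n, hn⟩ := sep hx h h2 h3.symm
    refine ⟨Nat.pair (i : ℕ) n, Or.inr ?_⟩
    simp only
    rw [hi n, Nat.unpair_pair]
    exact hn

end Pool.Agent.R233.CH
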