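import Pool.Agent.R233.CH.Push

/-!
The maximum principle for strictly plurisubharmonic functions on the zero set of an entire function
of two variables.
-/

set_option autoImplicit false

open Set Filter Topology

namespace Pool.Agent.R233.CH

theorem lin_form (Λ : E →L[ℂ] ℂ) : ∃ e₁ e₂ : E, Λ e₂ = 0 ∧ 0 ≤ (Λ e₁).re ∧
    ∀ a b : ℂ, a • e₁ + b • e₂ = 0 → a = 0 ∧ b = 0 := by
  set i₀ : E := EuclideanSpace.single 0 1 with hi0
  set i₁ : E := EuclideanSpace.single 1 1 with hi1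
  have hind : ∀ a b : ℂ, a • i₀ + b • i₁ = 0 → a = 0 ∧ b = 0 := by
    intro a b hab
    have h0 := congrArg (fun v : E => v 0) hab
    have h1 := congrArg (fun v : E => v 1) hab
    simp [hi0, hi1] at h0 h1
    exact ⟨h0, h1⟩
  by_cases h : Λ i₀ = 0 ∧ Λ i₁ = 0
  · refine ⟨i₀, i₁, h.2, ?_, hind⟩
    rw [h.1]; simp
  · set α := Λ i₀
    set β := Λ i₁
    have hpos : 0 < ‖α‖ ^ 2 + ‖β‖ ^ 2 := by
      rcases not_and_or.1 h with h1 | h1
      · have := norm_pos_iff.2 h1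
        positivity
      · have := norm_pos_iff.2 h1
        positivity
    have hΛ : Λ ((starRingEnd ℂ α) • i₀ + (starRingEnd ℂ β) • i₁)
        = ((‖α‖ ^ 2 + ‖β‖ ^ 2 : ℝ) : ℂ) := by
      rw [map_add, map_smul, map_smul, smul_eq_mul, smul_eq_mul]
      change starRingEnd ℂ α * α + starRingEnd ℂ β * β = _
      rw [mul_comm, Complex.mul_conj, mul_comm (starRingEnd ℂ β), Complex.mul_conj,
        Complex.normSq_eq_norm_sq, Complex.normSq_eq_norm_sq]
      push_cast
      ring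
    have hΛ2 : Λ (β • i₀ + (-α) • i₁) = 0 := by
      rw [map_add, map_smul, map_smul, smul_eq_mul, smul_eq_mul]
      change β * α + -α * β = 0
      ring
    refine ⟨(starRingEnd ℂ α) • i₀ + (starRingEnd ℂ β) • i₁, β • i₀ + (-α) • i₁, hΛ2, ?_, ?_⟩
    · rw [hΛ, Complex.ofReal_re]
      exact hpos.le
    · intro a b hab
      have ha : a = 0 := by
        have h1 := congrArg Λ hab
        rw [map_add, map_smul, map_smul, hΛ, hΛ2, map_zero, smul_zero, add_zero, smul_eq_mul] at h1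
        rcases mul_eq_zero.1 h1 with h2 | h2
        · exact h2
        · exact absurd (Complex.ofReal_eq_zero.1 h2) hpos.ne'
      refine ⟨ha, ?_⟩
      rw [ha, zero_smul, zero_add, smul_add, smul_smul, smul_smul] at hab
      obtain ⟨h1, h2⟩ := hind _ _ hab
      rcases not_and_or.1 h with h3 | h3
      · rcases mul_eq_zero.1 h2 with h4 | h4
        · exact h4
        · exact absurd (neg_eq_zero.1 h4) h3
      · rcases mul_eq_zero.1 h1 with h4 | h4
        · exact h4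
        · exact absurd h4 h3

theorem psh_max {f : E → ℂ} (hf : Differentiable ℂ f) {K : Set E} (hK : IsCompact K)
    (hKV : ∀ x ∈ K, f x = 0) {p : E} (hp : p ∈ K) (G : E →L[ℂ] ℂ) {τ : ℝ} (hτ : 0 < τ) :
    ∃ b ∈ K, 0 ≤ (G (b - p)).re + τ * ‖b - p‖ ^ 2 ∧
      ∀ r : ℝ, 0 < r → ∃ x, ‖x - b‖ < r ∧ f x = 0 ∧ x ∉ K := by
  have hcont : Continuous fun x : E => (G (x - p)).re + τ * ‖x - p‖ ^ 2 := by
    have : Continuous fun x : E => G (x - p) := G.continuous.comp (continuous_id.sub continuous_const)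
    exact (Complex.continuous_re.comp this).add (by fun_prop)
  obtain ⟨b, hb, hmax⟩ := hK.exists_isMaxOn ⟨p, hp⟩ hcont.continuousOn
  refine ⟨b, hb, ?_, ?_⟩
  · have := hmax hp
    simpa using this
  intro r hr
  by_contra hcon
  push Not at hcon
  let Λ : E →L[ℂ] ℂ := G + (2 * (τ : ℂ)) • (innerSL ℂ (b - p))
  have hΛ : ∀ h : E, (Λ h).re = (G h).re + 2 * τ * (inner ℂ (b - p) h).re := by
    intro h
    simp [Λ, Complex.add_re, mul_assoc]
  obtain ⟨e₁, e₂, h2, h1, hind⟩ := lin_form Λ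
  obtain ⟨r', hr', hr'2⟩ : ∃ r' : ℝ, 0 < r' ∧ r' * (‖e₁‖ + ‖e₂‖) < r := by
    refine ⟨r / (2 * (‖e₁‖ + ‖e₂‖ + 1)), by positivity, ?_⟩
    rw [div_mul_eq_mul_div, div_lt_iff₀ (by positivity)]
    nlinarith [norm_nonneg e₁, norm_nonneg e₂]
  refine push hf b e₁ e₂ 0 hr' ?_ (hKV b hb)
  intro t ht0 htr w hw htw hz
  rw [zero_mul, sub_zero] at hz
  set h : E := (t : ℂ) • e₁ + w • e₂ with hh
  have hn : ‖h‖ < r := by
    have ha : ‖h‖ ≤ ‖(t : ℂ) • e₁‖ + ‖w • e₂‖ := norm_add_le _ _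
    rw [norm_smul, norm_smul, Complex.norm_real, Real.norm_eq_abs, abs_of_nonneg ht0] at ha
    have hb1 := mul_le_mul_of_nonneg_right htr (norm_nonneg e₁)
    have hb2 := mul_le_mul_of_nonneg_right hw (norm_nonneg e₂)
    nlinarith
  have hbK : b + h ∈ K := hcon (b + h) (by simpa using hn) hz
  have hle := hmax hbK
  simp only [Set.mem_ofPred_eq] at hle
  have hexp : ‖b + h - p‖ ^ 2 = ‖b - p‖ ^ 2 + 2 * (inner ℂ (b - p) h).re + ‖h‖ ^ 2 := by
    have : b + h - p = (b - p) + h := by abel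
    rw [this]
    exact @norm_add_sq ℂ E _ _ _ (b - p) h
  have hG : (G (b + h - p)).re = (G (b - p)).re + (G h).re := by
    have : b + h - p = (b - p) + h := by abel
    rw [this, map_add, Complex.add_re]
  rw [hexp, hG] at hle
  have hΛh : (Λ h).re = t * (Λ e₁).re := by
    rw [hh, map_add, map_smul, map_smul, h2, smul_zero, add_zero, smul_eq_mul, Complex.re_ofReal_mul]
  have h4 : 0 ≤ (Λ h).re := by
    rw [hΛh]; exact mul_nonneg ht0 h1
  rw [hΛ] at h4
  have h5 : τ * ‖h‖ ^ 2 ≤ 0 := by nlinarith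
  have h6 : ‖h‖ = 0 := by
    by_contra h7
    have : 0 < ‖h‖ := lt_of_le_of_ne (norm_nonneg _) (Ne.symm h7)
    have : 0 < τ * ‖h‖ ^ 2 := by positivity
    linarith
  have h8 := hind (t : ℂ) w (by rw [← hh]; exact norm_eq_zero.1 h6)
  rcases htw with h9 | h9
  · exact h9 (Complex.ofReal_eq_zero.1 h8.1)
  · exact h9 h8.2

end Pool.Agent.R233.CH
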