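import Pool.Agent.R233.CH.Defs

/-!
Holomorphic functions without zeros on a family of discs pushed off a point.
-/

set_option autoImplicit false

open Set Filter Topology

namespace Pool.Agent.R233.CH

/-- the quantitative Hurwitz principle -/
theorem hurwitz {F : ℝ → ℂ → ℂ} {r : ℝ} (hr : 0 < r)
    (hc : Continuous fun q : ℝ × ℂ => F q.1 q.2) (hd : ∀ t, Differentiable ℂ (F t))
    (hne : ∀ t : ℝ, 0 ≤ t → t ≤ r → ∀ w : ℂ, ‖w‖ ≤ r → (t ≠ 0 ∨ w ≠ 0) → F t w ≠ 0) :
    F 0 0 ≠ 0 := by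
  have hcomp : IsCompact (Icc (0 : ℝ) r ×ˢ Metric.sphere (0 : ℂ) r) :=
    isCompact_Icc.prod (isCompact_sphere _ _)
  have hnonempty : (Icc (0 : ℝ) r ×ˢ Metric.sphere (0 : ℂ) r).Nonempty := by
    refine ⟨(0, (r : ℂ)), ⟨le_refl _, hr.le⟩, ?_⟩
    simp [abs_of_pos hr]
  obtain ⟨q0, hq0, hmin⟩ := hcomp.exists_isMinOn hnonempty hc.norm.continuousOn
  have hm : 0 < ‖F q0.1 q0.2‖ := by
    rw [norm_pos_iff]
    refine hne _ hq0.1.1 hq0.1.2 _ (le_of_eq ?_) (Or.inr ?_)
    · simpa using hq0.2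
    · intro h
      have h2 := hq0.2
      rw [h] at h2
      simp at h2
      linarith
  set m := ‖F q0.1 q0.2‖ with hmdef
  have key : ∀ t : ℝ, 0 < t → t ≤ r → m ≤ ‖F t 0‖ := by
    intro t ht htr
    have hz : ∀ w : ℂ, ‖w‖ ≤ r → F t w ≠ 0 := fun w hw => hne t ht.le htr w hw (Or.inl ht.ne')
    have hdc : DiffContOnCl ℂ (fun w => (F t w)⁻¹) (Metric.ball (0 : ℂ) r) := by
      refine ⟨?_, ?_⟩
      · intro w hw
        refine ((hd t w).inv (hz w ?_)).differentiableWithinAt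
        have := Metric.mem_ball.1 hw
        rw [dist_zero_right] at this
        exact this.le
      · rw [closure_ball _ hr.ne']
        intro w hw
        refine ((hd t w).continuousAt.inv₀ (hz w ?_)).continuousWithinAt
        have := Metric.mem_closedBall.1 hw
        rwa [dist_zero_right] at this
    have h1 : ‖(F t 0)⁻¹‖ ≤ m⁻¹ := by
      refine Complex.norm_le_of_forall_mem_frontier_norm_le Metric.isBounded_ball hdc ?_ ?_
      · intro w hw
        rw [frontier_ball _ hr.ne'] at hw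
        have h2 := hmin (show (t, w) ∈ Icc (0 : ℝ) r ×ˢ Metric.sphere (0 : ℂ) r from
          ⟨⟨ht.le, htr⟩, hw⟩)
        simp only [Set.mem_ofPred_eq] at h2
        rw [norm_inv]
        exact inv_anti₀ hm h2
      · exact subset_closure (Metric.mem_ball_self hr)
    rw [norm_inv] at h1
    have h3 : 0 < ‖F t 0‖ := norm_pos_iff.2 (hz 0 (by simpa using hr.le))
    exact (inv_le_inv₀ h3 hm).1 h1
  have hct : Continuous fun t : ℝ => ‖F t 0‖ :=
    (hc.comp (continuous_id.prodMk continuous_const)).norm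
  have hlim : Tendsto (fun t : ℝ => ‖F t 0‖) (𝓝[>] 0) (𝓝 ‖F 0 0‖) :=
    (hct.tendsto 0).mono_left nhdsWithin_le_nhds
  have h4 : m ≤ ‖F 0 0‖ := by
    refine ge_of_tendsto hlim ?_
    filter_upwards [Ioc_mem_nhdsGT hr] with t ht using key t ht.1 ht.2
  intro h5
  rw [h5, norm_zero] at h4
  linarith

/-- pushing a family of parabolic discs off the point `p` -/
theorem push {f : E → ℂ} (hf : Differentiable ℂ f) (p e₁ e₂ : E) (α : ℂ) {r : ℝ} (hr : 0 < r)
    (H : ∀ t : ℝ, 0 ≤ t → t ≤ r → ∀ w : ℂ, ‖w‖ ≤ r → (t ≠ 0 ∨ w ≠ 0) →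
      f (p + (((t : ℂ) - α * w ^ 2) • e₁ + w • e₂)) ≠ 0) : f p ≠ 0 := by
  have h := hurwitz (F := fun t w => f (p + (((t : ℂ) - α * w ^ 2) • e₁ + w • e₂))) hr ?_ ?_ H
  · simpa using h
  · refine hf.continuous.comp ?_
    fun_prop
  · intro t
    have : Differentiable ℂ fun w : ℂ => p + (((t : ℂ) - α * w ^ 2) • e₁ + w • e₂) := by fun_prop
    exact hf.comp this

end Pool.Agent.R233.CH
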