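import Pool.Agent.R233.CH.Edge

/-!
The exactness of the dented balls.
-/

set_option autoImplicit false

open Set Filter Topology

namespace Pool.Agent.R233.CH

/-- the growth of the square of the gap function -/
theorem grow {A g0 b Δ n : ℝ} (hA : 0 < A) (h0 : |A * g0| ≤ 1 / 2) (h1 : b ≤ Δ)
    (h2 : Δ ≤ b + 2 * n ^ 2) (h3 : 2 * A * n ^ 2 ≤ 1) :
    A * g0 * b + A / 4 * b ^ 2 - 2 * n ^ 2 ≤ A / 2 * ((g0 + Δ) ^ 2 - g0 ^ 2) := by
  obtain ⟨η, rfl⟩ : ∃ η, Δ = b + η := ⟨Δ - b, by ring⟩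
  have hη0 : 0 ≤ η := by linarith
  have hη1 : η ≤ 2 * n ^ 2 := by linarith
  have h4 := abs_le.1 h0
  have e1 : -(n ^ 2) ≤ A * g0 * η := by nlinarith
  have e2 : η ^ 2 ≤ 4 * (n ^ 2) ^ 2 := by nlinarith
  have e3 : A / 2 * η ^ 2 ≤ n ^ 2 := by
    have : A / 2 * η ^ 2 ≤ A / 2 * (4 * (n ^ 2) ^ 2) := mul_le_mul_of_nonneg_left e2 (by linarith)
    nlinarith [sq_nonneg n]
  have e4 : b ^ 2 / 2 - η ^ 2 ≤ (b + η) ^ 2 := by nlinarith [sq_nonneg (b + 2 * η)]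
  have e5 : A / 2 * (b ^ 2 / 2 - η ^ 2) ≤ A / 2 * (b + η) ^ 2 :=
    mul_le_mul_of_nonneg_left e4 (by linarith)
  nlinarith

/-- the positivity of the main term -/
theorem mainpos {A M C t s n : ℝ} (hC : 1 ≤ C) (hM : 1 ≤ M) (hA : 576 * (M + 2) * C ^ 2 + 8 ≤ A)
    (ht : 0 ≤ t) (hs : 0 ≤ s) (hts : t ≠ 0 ∨ s ≠ 0) (hn0 : 0 ≤ n)
    (hn : n ≤ 2 * C * (t + 3 * s)) (ht1 : 16 * (M + 2) * C ^ 2 * t ≤ 1) :
    0 < t + A / 8 * s ^ 2 - (M + 2) * n ^ 2 := by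
  have h1 : n ^ 2 ≤ (2 * C * (t + 3 * s)) ^ 2 := by gcongr
  have h2 : (2 * C * (t + 3 * s)) ^ 2 ≤ C ^ 2 * (8 * t ^ 2 + 72 * s ^ 2) := by
    have : 0 ≤ C ^ 2 * (t - 3 * s) ^ 2 := by positivity
    nlinarith
  have h3 : (M + 2) * n ^ 2 ≤ (M + 2) * (C ^ 2 * (8 * t ^ 2 + 72 * s ^ 2)) :=
    mul_le_mul_of_nonneg_left (h1.trans h2) (by linarith)
  have h4 : (72 * (M + 2) * C ^ 2 + 1) * s ^ 2 ≤ A / 8 * s ^ 2 :=
    mul_le_mul_of_nonneg_right (by linarith) (sq_nonneg s)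
  have h5 : (16 * (M + 2) * C ^ 2 * t) * t ≤ 1 * t := mul_le_mul_of_nonneg_right ht1 ht
  have h6 : 0 < t / 2 + s ^ 2 := by
    rcases hts with h | h
    · have := lt_of_le_of_ne ht (Ne.symm h)
      positivity
    · have := lt_of_le_of_ne hs (Ne.symm h)
      positivity
  nlinarith

theorem basis_forms {Λ G : E →L[ℂ] ℂ} (h : ∀ v : E, Λ v = 0 → G v = 0 → v = 0) :
    ∃ e₁ e₂ : E, Λ e₁ = 1 ∧ G e₁ = 0 ∧ Λ e₂ = 0 ∧ G e₂ = 1 := by
  let T : E →ₗ[ℂ] ℂ × ℂ := (Λ : E →ₗ[ℂ] ℂ).prod (G : E →ₗ[ℂ] ℂ)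
  have hT : ∀ v, T v = (Λ v, G v) := fun v => rfl
  have hinj : Function.Injective T := by
    rw [← LinearMap.ker_eq_bot, LinearMap.ker_eq_bot']
    intro v hv
    rw [hT] at hv
    exact h v (congrArg Prod.fst hv) (congrArg Prod.snd hv)
  have hfr : Module.finrank ℂ E = Module.finrank ℂ (ℂ × ℂ) := by
    simp
  have hsurj : Function.Surjective T :=
    (LinearMap.injective_iff_surjective_of_finrank_eq_finrank hfr).1 hinj
  obtain ⟨e₁, h1⟩ := hsurj (1, 0)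
  obtain ⟨e₂, h2⟩ := hsurj (0, 1)
  rw [hT] at h1 h2
  exact ⟨e₁, e₂, congrArg Prod.fst h1, congrArg Prod.snd h1, congrArg Prod.fst h2,
    congrArg Prod.snd h2⟩

variable {δ θ C e : ℝ} {g : ℕ → E → ℝ} {Φ : ℕ → E → ℝ} {ε A M R : ℕ → ℝ}

namespace Sys

/-- no interior maximum of the modified defining function on the zero set, at shallow points -/
theorem nomax (S : Sys δ θ C e g Φ ε A M R) {f : E → ℂ} (hf : Differentiable ℂ f) {k : ℕ} {p : E}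
    (hfp : f p = 0) (hp1 : ‖p‖ ≤ 1) (hsh : 1 - θ ≤ ‖p‖ ^ 2) (hgp : |g k p| ≤ 7 / 2 * ε k)
    (hgθ : |g k p| ≤ θ) {ρ : ℝ} (hρ : 0 < ρ)
    (hmax : ∀ y : E, ‖y - p‖ < ρ → f y = 0 →
      - Φ k y + A k / 2 * g k y ^ 2 ≤ - Φ k p + A k / 2 * g k p ^ 2) : False := by
  have hε := S.eps0 k
  have hA8 := S.A1 k
  have hApos : 0 < A k := by linarith
  have hM := S.M1 k
  have hC := S.C1
  have hAg : |A k * g k p| ≤ 1 / 2 := by
    rw [abs_mul, abs_of_pos hApos]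
    have h1 := mul_le_mul_of_nonneg_left hgp hApos.le
    have h2 := S.Aeps k
    linarith
  obtain ⟨G, -, hG2, hG3, hG4⟩ := (S.gap k).expand p hp1
  have hG4' := hG4 hsh hgθ
  obtain ⟨L, hL1, hL2⟩ := S.semi k p hp1
  have hind : ∀ h : E, ‖h‖ ≤ 2 * C * (‖L h‖ + ‖G h‖) := by
    intro h
    have h1 := hG4' h
    have h2 : ‖(2 : ℂ) * inner ℂ p h‖ ≤ ‖L h‖ + e * ‖h‖ := by
      have h3 : (2 : ℂ) * inner ℂ p h = L h - (L h - 2 * inner ℂ p h) := by ring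
      rw [h3]
      refine (norm_sub_le _ _).trans ?_
      linarith [hL1 h]
    have h3 : C * ‖(2 : ℂ) * inner ℂ p h‖ ≤ C * (‖L h‖ + e * ‖h‖) :=
      mul_le_mul_of_nonneg_left h2 (by linarith)
    have h4 : C * e * ‖h‖ ≤ 1 / 2 * ‖h‖ := mul_le_mul_of_nonneg_right S.eC (norm_nonneg h)
    nlinarith
  let Λ : E →L[ℂ] ℂ := -L + ((A k * g k p : ℝ) : ℂ) • G
  have hΛ : ∀ h, Λ h = - L h + ((A k * g k p : ℝ) : ℂ) * G h := fun h => rfl
  have hLle : ∀ h : E, ‖L h‖ ≤ ‖Λ h‖ + 1 / 2 * ‖G h‖ := by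
    intro h
    have h1 : L h = -(Λ h) + ((A k * g k p : ℝ) : ℂ) * G h := by rw [hΛ]; ring
    rw [h1]
    refine (norm_add_le _ _).trans ?_
    rw [norm_neg, norm_mul, Complex.norm_real, Real.norm_eq_abs]
    have := mul_le_mul_of_nonneg_right hAg (norm_nonneg (G h))
    linarith
  obtain ⟨e₁, e₂, hb1, hb2, hb3, hb4⟩ := basis_forms (Λ := Λ) (G := G) (by
    intro v hv1 hv2
    have h1 := hLle v
    rw [hv1, hv2, norm_zero] at h1
    have h2 := hind v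
    rw [hv2, norm_zero] at h2
    have h3 : ‖L v‖ = 0 := le_antisymm (by linarith) (norm_nonneg _)
    rw [h3] at h2
    exact norm_eq_zero.1 (le_antisymm (by linarith) (norm_nonneg _)))
  have hA8' : ‖((A k / 8 : ℝ) : ℂ)‖ = A k / 8 := by
    rw [Complex.norm_real, Real.norm_eq_abs, abs_of_pos (by linarith)]
  -- the size of the discs
  have hρ'0 : 0 < min ρ (1 / (2 * A k)) := lt_min hρ (by positivity)
  obtain ⟨r, hr0, hr1, hr2, hr3⟩ : ∃ r : ℝ, 0 < r ∧ A k / 8 * r ≤ 1 ∧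
      r * (2 * ‖e₁‖ + ‖e₂‖) < min ρ (1 / (2 * A k)) ∧ 16 * (M k + 2) * C ^ 2 * r ≤ 1 := by
    have hq1 : 0 < 8 / A k := by positivity
    have hq2 : 0 < min ρ (1 / (2 * A k)) / (2 * ‖e₁‖ + ‖e₂‖ + 1) := by positivity
    have hq3 : 0 < 1 / (16 * (M k + 2) * C ^ 2) := by positivity
    refine ⟨min (8 / A k) (min (min ρ (1 / (2 * A k)) / (2 * ‖e₁‖ + ‖e₂‖ + 1))
      (1 / (16 * (M k + 2) * C ^ 2))), lt_min hq1 (lt_min hq2 hq3), ?_, ?_, ?_⟩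
    · have h1 := min_le_left (8 / A k) (min (min ρ (1 / (2 * A k)) / (2 * ‖e₁‖ + ‖e₂‖ + 1))
        (1 / (16 * (M k + 2) * C ^ 2)))
      rw [le_div_iff₀ hApos] at h1
      linarith
    · have h1 := (min_le_right (8 / A k) (min (min ρ (1 / (2 * A k)) / (2 * ‖e₁‖ + ‖e₂‖ + 1))
        (1 / (16 * (M k + 2) * C ^ 2)))).trans (min_le_left _ _)
      rw [le_div_iff₀ (by positivity)] at h1
      have h2 := lt_min hq1 (lt_min hq2 hq3)
      nlinarith [norm_nonneg e₁, norm_nonneg e₂]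
    · have h1 := (min_le_right (8 / A k) (min (min ρ (1 / (2 * A k)) / (2 * ‖e₁‖ + ‖e₂‖ + 1))
        (1 / (16 * (M k + 2) * C ^ 2)))).trans (min_le_right _ _)
      rw [le_div_iff₀ (by positivity)] at h1
      linarith
  refine push hf p e₁ e₂ ((A k / 8 : ℝ) : ℂ) hr0 ?_ hfp
  intro t ht0 htr w hw htw hz
  set h : E := ((t : ℂ) - ((A k / 8 : ℝ) : ℂ) * w ^ 2) • e₁ + w • e₂ with hh
  have hΛh : Λ h = (t : ℂ) - ((A k / 8 : ℝ) : ℂ) * w ^ 2 := by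
    rw [hh, map_add, map_smul, map_smul, hb1, hb3]; simp
  have hGh : G h = w := by
    rw [hh, map_add, map_smul, map_smul, hb2, hb4]; simp
  have hw0 := norm_nonneg w
  have hcoef : ‖(t : ℂ) - ((A k / 8 : ℝ) : ℂ) * w ^ 2‖ ≤ t + A k / 8 * ‖w‖ ^ 2 := by
    refine (norm_sub_le _ _).trans ?_
    rw [norm_mul, hA8', norm_pow, Complex.norm_real, Real.norm_eq_abs, abs_of_nonneg ht0]
  have hAw : A k / 8 * ‖w‖ ^ 2 ≤ ‖w‖ := by
    have h1 : A k / 8 * ‖w‖ ≤ 1 := by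
      have := mul_le_mul_of_nonneg_left hw (by linarith : 0 ≤ A k / 8)
      linarith
    nlinarith
  have hnh : ‖h‖ < min ρ (1 / (2 * A k)) := by
    have h1 : ‖h‖ ≤ ‖((t : ℂ) - ((A k / 8 : ℝ) : ℂ) * w ^ 2) • e₁‖ + ‖w • e₂‖ := norm_add_le _ _
    rw [norm_smul, norm_smul] at h1
    have h2 : ‖(t : ℂ) - ((A k / 8 : ℝ) : ℂ) * w ^ 2‖ ≤ 2 * r := by linarith
    have h3 := mul_le_mul_of_nonneg_right h2 (norm_nonneg e₁)
    have h4 := mul_le_mul_of_nonneg_right hw (norm_nonneg e₂)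
    linarith
  have hnρ := hnh.trans_le (min_le_left _ _)
  have hnA := hnh.trans_le (min_le_right _ _)
  have hn0 := norm_nonneg h
  have hnA1 : 2 * A k * ‖h‖ ≤ 1 := by
    rw [lt_div_iff₀ (by positivity)] at hnA
    linarith
  have hn1 : ‖h‖ ≤ 1 := by nlinarith
  have hnA2 : 2 * A k * ‖h‖ ^ 2 ≤ 1 := by nlinarith
  have e1 := hmax (p + h) (by simpa using hnρ) hz
  have e2 := hL2 h hn1
  have e3 := hG2 h
  have e4 := hG3 h
  have e5 : 0 ≤ δ * ‖h‖ ^ 2 := by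
    have := S.δ0
    positivity
  have e6 := grow (A := A k) (g0 := g k p) (b := (G h).re) (Δ := g k (p + h) - g k p) (n := ‖h‖)
    hApos hAg (by linarith) (by linarith) hnA2
  rw [add_sub_cancel] at e6
  have e7 : (Λ h).re = -(L h).re + A k * g k p * (G h).re := by
    rw [hΛ, Complex.add_re, Complex.neg_re, Complex.re_ofReal_mul]
  have e8 : (Λ h).re = t - A k / 8 * (w.re ^ 2 - w.im ^ 2) := by
    rw [hΛh, Complex.sub_re, Complex.re_ofReal_mul, Complex.ofReal_re, sq w, Complex.mul_re]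
    ring
  have e9 : ‖w‖ ^ 2 = w.re ^ 2 + w.im ^ 2 := by
    rw [← Complex.normSq_eq_norm_sq, Complex.normSq_apply]; ring
  have e10 : ‖h‖ ≤ 2 * C * (t + 3 * ‖w‖) := by
    have h1 := hind h
    have h2 := hLle h
    rw [hΛh, hGh] at h2
    rw [hGh] at h1
    have h3 : ‖L h‖ + ‖w‖ ≤ t + 3 * ‖w‖ := by linarith
    have h4 := mul_le_mul_of_nonneg_left h3 (by linarith : 0 ≤ 2 * C)
    linarith
  have e11 := mainpos (A := A k) (M := M k) (C := C) (t := t) (s := ‖w‖) (n := ‖h‖) hC hM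
    (S.Alarge k) ht0 hw0 (by
      rcases htw with h1 | h1
      · exact Or.inl h1
      · exact Or.inr (norm_ne_zero_iff.2 h1)) hn0 e10 (by
      have h1 : 16 * (M k + 2) * C ^ 2 * t ≤ 16 * (M k + 2) * C ^ 2 * r :=
        mul_le_mul_of_nonneg_left htr (by positivity)
      linarith)
  rw [hGh] at e6 e7
  rw [e9] at e11
  linarith

end Sys

end Pool.Agent.R233.CH
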